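import Pool.Agent.H20PW.Dens
import Pool.Agent.Y626.WC.Core

/-!
# Decision trees for existential sentences relative to biased random oracles
-/

set_option autoImplicit false

namespace Pool.Agent.H20PW

open MeasureTheory Pool.Agent.NPC Pool.Agent.H620R2.Gauge Pool.Agent.TH678.GC
  Pool.Agent.Y626.WG
open Pool.Agent.H20RD (DepOn rnd w w_nonneg Orc lik)
open Pool.Agent.Y626.WC (DT DD card_DD DD_len atoms_loc sat_one Sq mem_Sq cut cd cd_inj cd_lt cd_pos)

/-- the oracle `A`, replaced at the lengths where it is almost constant by the constant oracle with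
the exceptions `F` -/
noncomputable def ov (p : ℕ → unitInterval) (F : List (List Bool)) (A : Orc) : Orc := by
  classical
  exact fun z => if Sp p z.length then (lik (p z.length)).xor (decide (z ∈ F)) else A z

theorem ov_eq {p : ℕ → unitInterval} {F : List (List Bool)} {A : Orc}
    (h : ∀ z, z ∈ F ↔ Sp p z.length ∧ A z ≠ lik (p z.length)) : ov p F A = A := by
  classical
  funext z
  unfold ov
  split_ifs with hz
  · by_cases h1 : A z = lik (p z.length)
    · have h2 : z ∉ F := fun h2 => ((h z).1 h2).2 h1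
      rw [h1]
      simp [h2]
    · have h2 : z ∈ F := (h z).2 ⟨hz, h1⟩
      simp only [h2, decide_true, Bool.xor_true]
      revert h1
      cases A z <;> cases lik (p z.length) <;> simp
  · rfl

/-- the bound for the number of questions -/
def bdd (C k n : ℕ) : ℕ := C * (n + 1) * (2 * n + 2) * k ^ 2

theorem one_inst (p : ℕ → unitInterval) (F : List (List Bool)) (E : Orc) {I : Inst}
    (hI : I.IsW 1) (n : ℕ) (hn : (bits I).length ^ 2 ≤ n) {C : ℕ} (hC1 : 1 ≤ C)
    (hC : ∀ m, ¬ Sp p m → 1 ≤ C * (m + 1) * mn (p m) ^ I.param) :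
    ∃ t : DT, t.depth ≤ bdd C I.param n ∧ (∀ h, (t.nx h).length ≤ n) ∧
      (rnd fun x => p x.length).real {A | ¬ (t.eval A = true ↔ I.Sat (join (ov p F A) E))} ≤
        (1 / 2) ^ (2 * n + 2) := by
  classical
  have hD : ∀ (v : List ℕ) (z : List Bool), z ∈ (DD I v).filter (fun z => ¬ Sp p z.length) →
      z.length ≤ n ∧ ¬ Sp p z.length := by
    intro v z hz
    rw [Finset.mem_filter] at hz
    exact ⟨(DD_len I hz.1).trans hn, hz.2⟩
  set S := (Sq n).filter (fun z => ¬ Sp p z.length) with hS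
  obtain ⟨t, h1, h2, h3⟩ := tree I.param (C * (n + 1) * (2 * n + 2)) S I.param le_rfl
    (List ℕ) (fun v A => (v.length = I.blocks.sum ∧ ∀ a ∈ v, a < I.labels.length) ∧
      I.atoms.map (I.atom (join (ov p F A) E) v) ∈ I.acc)
    (fun v => (DD I v).filter (fun z => ¬ Sp p z.length))
    (fun v A A' h => by
      have e : I.atoms.map (I.atom (join (ov p F A) E) v) =
          I.atoms.map (I.atom (join (ov p F A') E) v) := by
        refine atoms_loc I fun z hz => ?_
        unfold ov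
        split_ifs with hsp
        · rfl
        · exact h z (Finset.mem_filter.2 ⟨hz, hsp⟩)
      change (_ ∧ _ ∈ I.acc) ↔ (_ ∧ _ ∈ I.acc)
      rw [e])
    (fun v z hz => Finset.mem_filter.2 ⟨mem_Sq.2 (hD v z hz).1, (hD v z hz).2⟩)
    (fun v _ => (Finset.card_filter_le _ _).trans (card_DD I v))
  refine ⟨t, h1.trans (le_of_eq rfl), fun h => ?_, ?_⟩
  · rcases DT.nx_mem t h2 h with h4 | h4
    · rw [h4]
      simp
    · obtain ⟨v, hv⟩ := Set.mem_iUnion.1 h4
      exact (hD v _ (Finset.mem_coe.1 hv)).1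
  · have hex : ∃ ε : ℝ, 0 ≤ ε ∧ ε ≤ 1 ∧ (∀ z ∈ S, ∀ β, ε ≤ w β (p z.length)) ∧
        1 ≤ ((C * (n + 1) : ℕ) : ℝ) * ε ^ I.param := by
      rcases S.eq_empty_or_nonempty with he | hne
      · refine ⟨1, zero_le_one, le_rfl, fun z hz => ?_, ?_⟩
        · rw [he] at hz
          simp at hz
        · rw [one_pow, mul_one]
          have : 1 ≤ C * (n + 1) := Nat.mul_pos hC1 (by omega)
          exact_mod_cast this
      · obtain ⟨z0, hz0, hmin⟩ := S.exists_min_image (fun z => mn (p z.length)) hne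
        rw [hS, Finset.mem_filter, mem_Sq] at hz0
        refine ⟨mn (p z0.length), mn_nonneg _, mn_le_one _, fun z hz β =>
          (hmin z hz).trans (mn_le_w _ β), ?_⟩
        refine (hC z0.length hz0.2).trans ?_
        refine mul_le_mul_of_nonneg_right ?_ (pow_nonneg (mn_nonneg _) _)
        have h5 : C * (z0.length + 1) ≤ C * (n + 1) := Nat.mul_le_mul_left _ (by omega)
        exact_mod_cast h5
    obtain ⟨ε, e0, e1, e2, e3⟩ := hex
    refine le_trans (le_of_eq ?_) ((h3 (fun x => p x.length) ε e0 e1 e2).trans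
      (err_le (pow_le_one₀ e0 e1) e3 _))
    congr 1
    ext A
    change ¬ _ ↔ ¬ _
    rw [sat_one hI]

theorem inst {p : ℕ → unitInterval} {Cw : ℕ → ℕ} (hC1 : ∀ W, 1 ≤ Cw W)
    (hC : ∀ W n, ¬ Sp p n → 1 ≤ Cw W * (n + 1) * mn (p n) ^ W) (E : Orc) (y : List Bool) :
    ∃ (t : DT) (Bad : Set Orc),
    (rnd fun x => p x.length).real Bad ≤ (1 / 2) ^ (2 * y.length + 2) ∧
      (∀ h, (t.nx h).length ≤ y.length) ∧
      ∀ (F : List (List Bool)) (I : Inst), (unpair y).2 = pairBits (bits F) (bits I) →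
        I.IsW 1 → (bits I).length ^ 2 ≤ y.length →
        t.depth ≤ bdd (Cw I.param) I.param y.length ∧
          ∀ A ∉ Bad, (t.eval A = true ↔ I.Sat (join (ov p F A) E)) := by
  by_cases H : ∃ (F : List (List Bool)) (I : Inst), (unpair y).2 = pairBits (bits F) (bits I) ∧
      I.IsW 1 ∧ (bits I).length ^ 2 ≤ y.length
  · obtain ⟨F, I, h1, h2, h3⟩ := H
    obtain ⟨t, h4, h5, h6⟩ := one_inst p F E h2 _ h3 (hC1 I.param) (hC I.param)
    refine ⟨t, _, h6, h5, fun F' I' h1' _ _ => ?_⟩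
    rw [h1] at h1'
    have h7 := congrArg unpair h1'
    rw [unpair_pairBits, unpair_pairBits, Prod.mk.injEq] at h7
    obtain rfl := bits_injective h7.1
    obtain rfl := bits_injective h7.2
    exact ⟨h4, fun A hA => not_not.1 hA⟩
  · refine ⟨DT.leaf false, ∅, ?_, fun h => ?_, fun F I h1 h2 h3 => absurd ⟨F, I, h1, h2, h3⟩ H⟩
    · rw [measureReal_empty]
      positivity
    · cases h <;> simp [DT.nx]

theorem bc (q : List Bool → unitInterval) (Bad : List Bool → Set Orc)
    (h : ∀ x, (rnd q).real (Bad x) ≤ (1 / 2) ^ (2 * x.length + 2)) :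
    ∀ᵐ A ∂(rnd q), {x | A ∈ Bad x}.Finite := by
  refine MeasureTheory.ae_finite_setOfPred_mem ?_
  have hs : Summable fun x : List Bool => 1 / ((cd x : ℕ) : ℝ) ^ 2 :=
    (Real.summable_one_div_nat_pow.2 (by norm_num : 1 < 2)).comp_injective
      (i := cd) (fun x y hxy => cd_inj x y hxy)
  refine ne_top_of_le_ne_top hs.tsum_ofReal_ne_top (ENNReal.tsum_le_tsum fun x => ?_)
  rw [← ENNReal.ofReal_toReal (MeasureTheory.measure_ne_top (rnd q) (Bad x))]
  refine ENNReal.ofReal_le_ofReal ((h x).trans ?_)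
  have h1 : ((cd x : ℕ) : ℝ) ≤ 2 ^ (x.length + 1) := by exact_mod_cast (cd_lt x).le
  have h2 : (0 : ℝ) < ((cd x : ℕ) : ℝ) := by exact_mod_cast cd_pos x
  have h3 : ((1 : ℝ) / 2) ^ (2 * x.length + 2) = 1 / (2 ^ (x.length + 1)) ^ 2 := by
    rw [one_div_pow, ← pow_mul]
    congr 2
    ring
  rw [h3]
  gcongr

end Pool.Agent.H20PW
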