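import Pool.Agent.Y626.WG.Defs

/-!
# Nonuniform fixed-parameter tractability relative to an oracle
-/

set_option autoImplicit false

namespace Pool.Agent.H20PW

open Pool.Agent.NPC Pool.Agent.H620R2.Gauge

/-- The parameterized problem `P` about the elements `a` of the encoded type `α`, with the
parameter `κ a`, is in nonuniform `FPT` relative to the oracle `A`: it is decided in polynomial
time relative to `A` after an arbitrary precomputation `π` on the parameter. -/
def InFPTn (A : Oracle) {α : Type} [TEnc α] (κ : α → ℕ) (P : α → Prop) : Prop :=
  ∃ (π : ℕ → List Bool) (M : Alg),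
    ∀ a, ∃ b : Bool, M.out A (pairBits (π (κ a)) (bits a)) = some [b] ∧ (P a ↔ b = true)

end Pool.Agent.H20PW
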