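import Pool.Agent.H20PW.OneI
import Pool.Agent.H20PW.Defs
import Pool.Agent.Y626.WC.Main

/-!
# The easy side: `W[1]` is in nonuniform `FPT`
-/

set_option autoImplicit false

namespace Pool.Agent.H20PW

open MeasureTheory Pool.Agent.NPC Pool.Agent.H620R2.Gauge Pool.Agent.TH678.GC
  Pool.Agent.Y626.WG
open Pool.Agent.H20RD (DepOn rnd w w_nonneg Orc lik)
open Pool.Agent.Y626.WC (DT DD card_DD DD_len atoms_loc sat_one sat_cut Sq mem_Sq cut cut_cut
  exists_self ec ec_length ec_inj hist hist_length hist_getElem isFP_sim isFP_total poly_rep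
  bits_inj')

/-- the factor in the bound -/
def fb (Cw : ℕ → ℕ) (k : ℕ) : ℕ := ∑ i ∈ Finset.range (k + 1), Cw i * i ^ 2

theorem bdd_le {Cw : ℕ → ℕ} {i k n : ℕ} (h : i ≤ k) :
    bdd (Cw i) i n ≤ fb Cw k * ((n + 1) * (2 * n + 2)) := by
  have h1 : Cw i * i ^ 2 ≤ fb Cw k :=
    Finset.single_le_sum (f := fun i => Cw i * i ^ 2) (fun _ _ => Nat.zero_le _)
      (Finset.mem_range.2 (by omega))
  calc bdd (Cw i) i n = (Cw i * i ^ 2) * ((n + 1) * (2 * n + 2)) := by unfold bdd; ring
    _ ≤ _ := Nat.mul_le_mul_right _ h1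

/-- The padded string. -/
def yq (F : List (List Bool)) (r : List Bool) : List Bool :=
  pairBits (List.replicate (r.length ^ 2) true) (pairBits (bits F) r)

theorem yq_len (F : List (List Bool)) (r : List Bool) : r.length ^ 2 ≤ (yq F r).length := by
  unfold yq
  rw [length_pairBits, List.length_replicate]
  omega

theorem unpair_yq (F : List (List Bool)) (r : List Bool) :
    (unpair (yq F r)).2 = pairBits (bits F) r := by
  unfold yq
  rw [unpair_pairBits]

theorem poly_yq (F : List (List Bool)) {α : Type} [TEnc α] {r : α → List Bool}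
    (hr : NPC.Poly r) : NPC.Poly (fun a => yq F (r a)) := by
  have h1 : UPoly (fun a => (r a).length ^ 2) :=
    ((UPoly.length hr).mul (UPoly.length hr)).congr fun a => by
      simp [pow_two]
  exact Pool.Agent.H622R2.poly_pairBits (poly_rep h1 true)
    (Pool.Agent.H622R2.poly_pairBits (NPC.Poly.const _) hr)

/-- The argument of the simulation. -/
def xq (F : List (List Bool)) (z r : List Bool) : List Bool :=
  pairBits (List.replicate ((unpair (unpair z).1).1.length *
    (((yq F r).length + 1) * (2 * (yq F r).length + 2))) true) (yq F r)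

theorem poly_xq (F : List (List Bool)) {α : Type} [TEnc α] {z r : α → List Bool}
    (hz : NPC.Poly z) (hr : NPC.Poly r) : NPC.Poly (fun a => xq F (z a) (r a)) := by
  have h1 : NPC.Poly (fun a => (unpair (unpair (z a)).1).1) :=
    (NPC.Poly.fst poly_unpair).comp ((NPC.Poly.fst poly_unpair).comp hz)
  have h2 : UPoly (fun a => (yq F (r a)).length) := UPoly.length (poly_yq F hr)
  have h3 : UPoly (fun a => (unpair (unpair (z a)).1).1.length *
      (((yq F (r a)).length + 1) * (2 * (yq F (r a)).length + 2))) :=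
    (UPoly.length h1).mul ((h2.add (UPoly.const 1)).mul
      ((UPoly.mul (UPoly.const 2) h2).add (UPoly.const 2)))
  exact Pool.Agent.H622R2.poly_pairBits (poly_rep h3 true) (poly_yq F hr)

/-- **The easy side.** -/
theorem easy {p : ℕ → unitInterval} (h : ∀ δ : ℝ, 0 < δ → Summable (tm p δ)) :
    ∃ E : Oracle, ∀ᵐ A ∂(rnd fun x => p x.length), ∀ (α : Type) [TEnc α] (κ : α → ℕ)
      (P : α → Prop), InW 1 (join A E) κ P → InFPTn (join A E) κ P := by
  classical
  choose Cw hC1 hC using dens h
  choose T Bad hBad hlen hT using inst hC1 hC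
  set QQ : Oracle → List Bool → List Bool → List Bool → Prop := fun E y h v =>
    (v = [] ∧ (T (cut E (y.length + 1)) y).fv h = true) ∨
    (∃ t : ℕ, v = true :: t.bits ∧ t < ((T (cut E (y.length + 1)) y).nx h).length) ∨
    (∃ t : ℕ, v = false :: t.bits ∧ ((T (cut E (y.length + 1)) y).nx h).getD t false = true)
    with hQQ
  obtain ⟨E, hEF⟩ := exists_self (fun u E => decide (∃ y h v : List Bool, u = ec y h v ∧
    QQ E y h v))
  have hE : ∀ y h v, E (ec y h v) = true ↔ QQ E y h v := by
    intro y h v
    rw [hEF, decide_eq_true_eq]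
    have hcut : cut (cut E (ec y h v).length) (y.length + 1) = cut E (y.length + 1) :=
      cut_cut E (by rw [ec_length]; omega)
    have hq : QQ (cut E (ec y h v).length) y h v ↔ QQ E y h v := by
      simp only [hQQ, hcut]
    constructor
    · rintro ⟨y', h', v', h1, h2⟩
      obtain ⟨rfl, rfl, rfl⟩ := ec_inj h1
      exact hq.1 h2
    · intro h1
      exact ⟨y, h, v, rfl, hq.2 h1⟩
  refine ⟨E, ?_⟩
  have hae : ∀ᵐ A ∂(rnd fun x => p x.length), {y | A ∈ Bad (cut E (y.length + 1)) y}.Finite :=
    bc _ (fun y => Bad (cut E (y.length + 1)) y) (fun y => hBad _ y)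
  filter_upwards [hae, ae_finite' (h 1 one_pos)] with A hA hfin α _ κ P hQ
  set F : List (List Bool) := hfin.toFinset.toList with hF
  have hov : ov p F A = A := ov_eq fun z => by
    rw [hF, Finset.mem_toList, Set.Finite.mem_toFinset]
    rfl
  obtain ⟨π, g, R, M, hπ, hg, hR⟩ := hQ
  set O := join A E with hO
  set Z : List Bool → List Bool → List Bool := fun y h =>
    (T (cut E (y.length + 1)) y).nx h with hZ
  set FV : List Bool → List Bool → Bool := fun y h =>
    (T (cut E (y.length + 1)) y).fv h with hFV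
  have h1 : ∀ (y h : List Bool) (t : ℕ), E (ec y h (true :: t.bits)) =
      decide (t < (Z y h).length) := by
    intro y h t
    rw [Bool.eq_iff_iff, hE, decide_eq_true_eq]
    simp only [hQQ, hZ]
    constructor
    · rintro (⟨h1, -⟩ | ⟨t', h1, h2⟩ | ⟨t', h1, -⟩)
      · exact absurd h1 (by simp)
      · rw [List.cons.injEq] at h1
        rw [bits_inj' h1.2]
        exact h2
      · exact absurd h1 (by simp)
    · intro h1
      exact Or.inr (Or.inl ⟨t, rfl, h1⟩)
  have h2 : ∀ (y h : List Bool) (t : ℕ), E (ec y h (false :: t.bits)) =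
      (Z y h).getD t false := by
    intro y h t
    rw [Bool.eq_iff_iff, hE]
    simp only [hQQ, hZ]
    constructor
    · rintro (⟨h1, -⟩ | ⟨t', h1, -⟩ | ⟨t', h1, h2⟩)
      · exact absurd h1 (by simp)
      · exact absurd h1 (by simp)
      · rw [List.cons.injEq] at h1
        rw [bits_inj' h1.2]
        exact h2
    · intro h1
      exact Or.inr (Or.inr ⟨t, rfl, h1⟩)
  have h3 : ∀ y h : List Bool, E (ec y h []) = FV y h := by
    intro y h
    rw [Bool.eq_iff_iff, hE, hFV]
    simp only [hQQ]
    constructor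
    · rintro (⟨-, h1⟩ | ⟨t', h1, -⟩ | ⟨t', h1, -⟩)
      · exact h1
      · exact absurd h1 (by simp)
      · exact absurd h1 (by simp)
    · intro h1
      exact Or.inl ⟨trivial, h1⟩
  have h4 : ∀ y h : List Bool, (Z y h).length ≤ y.length := fun y h => hlen _ y h
  have hsim := isFP_sim (A := A) h1 h2 h3 h4
  rw [← hO] at hsim
  -- the reduction
  set rr : List Bool → List Bool := fun z =>
    (M.out O (pairBits (unpair (unpair z).1).2 (unpair z).2)).getD [] with hrr
  have hrF : IsFP O rr := IsFP.comp (isFP_total O M) (IsFP.of_poly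
    (Pool.Agent.H622R2.poly_pairBits
      ((NPC.Poly.snd poly_unpair).comp (NPC.Poly.fst poly_unpair)) (NPC.Poly.snd poly_unpair)))
  have hG : IsFP O (fun z => xq F z (rr z)) := by
    have h := IsFP.seq hrF hrF (φ := fun p => p.1) (ψ := fun p => xq F p.1 p.2.1)
      (NPC.Poly.fst NPC.Poly.id) (poly_xq F (NPC.Poly.fst NPC.Poly.id)
        (NPC.Poly.fst (NPC.Poly.snd NPC.Poly.id)))
    exact h
  set EE : Finset (List Bool) := hA.toFinset with hEE
  set E' : Finset (List Bool) := EE.filter (fun y => ∃ I : Inst,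
    (unpair y).2 = pairBits (bits F) (bits I) ∧ I.Sat O) with hE'
  have hVF := IsFP.seq hG hsim (φ := fun p => p.2)
    (ψ := fun p => if (unpair p.2.1).2 ∈ EE.toList then [decide ((unpair p.2.1).2 ∈ E'.toList)]
      else p.2.2) (NPC.Poly.snd NPC.Poly.id) (by
      have hu : NPC.Poly (fun p : List Bool × List Bool × List Bool => (unpair p.2.1).2) :=
        (NPC.Poly.snd poly_unpair).comp (NPC.Poly.fst (NPC.Poly.snd NPC.Poly.id))
      exact NPC.Poly.ite ((NPC.Poly.decide_mem hu (NPC.Poly.const EE.toList)).congr fun p => by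
          congr)
        (NPC.Poly.cons ((NPC.Poly.decide_mem hu (NPC.Poly.const E'.toList)).congr fun p => by
          congr) (NPC.Poly.const []))
        (NPC.Poly.snd (NPC.Poly.snd NPC.Poly.id)))
  simp only [Finset.mem_toList] at hVF
  obtain ⟨M', hM'⟩ := hVF
  refine ⟨fun k => pairBits (List.replicate (fb Cw (g k)) true) (π k), M', fun a => ?_⟩
  obtain ⟨h5, h6, h7, h8⟩ := hR a
  set z := pairBits (pairBits (List.replicate (fb Cw (g (κ a))) true) (π (κ a))) (bits a) with hz
  have hrz : rr z = bits (R a) := by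
    rw [hrr]
    dsimp only
    rw [hz, unpair_pairBits]
    dsimp only
    rw [unpair_pairBits]
    dsimp only
    rw [h5]
    rfl
  have hz1 : (unpair (unpair z).1).1 = List.replicate (fb Cw (g (κ a))) true := by
    rw [hz, unpair_pairBits]
    dsimp only
    rw [unpair_pairBits]
  set y := yq F (bits (R a)) with hy
  have hx : xq F z (rr z) = pairBits (List.replicate (fb Cw (g (κ a)) *
      ((y.length + 1) * (2 * y.length + 2))) true) y := by
    rw [hrz]
    unfold xq
    rw [hz1, List.length_replicate]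
  have hy2 : (unpair y).2 = pairBits (bits F) (bits (R a)) := unpair_yq _ _
  rw [hM' z]
  beta_reduce
  rw [hx, unpair_pairBits]
  dsimp only
  by_cases hyE : y ∈ EE
  · rw [if_pos hyE]
    refine ⟨_, rfl, ?_⟩
    rw [decide_eq_true_eq, h8, hE', Finset.mem_filter]
    constructor
    · intro h
      exact ⟨hyE, R a, hy2, h⟩
    · rintro ⟨-, I, h9, h10⟩
      rw [hy2] at h9
      have h11 := congrArg unpair h9
      rw [unpair_pairBits, unpair_pairBits, Prod.mk.injEq] at h11
      rw [bits_injective h11.2]
      exact h10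
  · rw [if_neg hyE]
    refine ⟨_, rfl, ?_⟩
    have hbad : A ∉ Bad (cut E (y.length + 1)) y := fun h => hyE (hA.mem_toFinset.2 h)
    obtain ⟨h9, h10⟩ := hT (cut E (y.length + 1)) y F (R a) hy2 h6 (by
      rw [hy]
      exact yq_len _ _)
    set L := (pairBits (List.replicate (fb Cw (g (κ a)) *
      ((y.length + 1) * (2 * y.length + 2))) true) y).length with hL
    have hdep : (T (cut E (y.length + 1)) y).depth ≤ (hist A Z y L).length := by
      rw [hist_length]
      refine h9.trans ((bdd_le h7).trans ?_)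
      rw [hL, length_pairBits, List.length_replicate]
      omega
    have h11 := DT.fv_eq (A := A) _ (hist A Z y L) hdep (fun n hn => hist_getElem A Z y L n hn)
    rw [h8, hFV]
    dsimp only
    rw [h11, h10 A hbad, hov]
    exact (sat_cut h6 (by rw [hy]; exact yq_len _ _)).symm

end Pool.Agent.H20PW
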