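import Pool.Agent.H20PW.Fin
import Pool.Agent.H20PW.Easy

/-!
# The dichotomy
-/

set_option autoImplicit false

namespace Pool.Agent.H20PW

open MeasureTheory Pool.Agent.NPC Pool.Agent.H620R2.Gauge Pool.Agent.TH678.GC
  Pool.Agent.Y626.WG
open Pool.Agent.Y581.WN (InM1n)
open Pool.Agent.H20RD (rnd)

theorem inM1n_of_inFPTn {O : Oracle} {β : Type} [TEnc β] {κ : β → ℕ} {P : β → Prop}
    (h : InFPTn O κ P) : InM1n O κ P := by
  classical
  obtain ⟨π, M, h⟩ := h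
  choose b h1 h2 using h
  refine ⟨π, fun _ => 1, 1, M, fun a => [b a], {x | x = [true]}, ?_,
    fun a => ⟨h1 a, ?_, ?_⟩⟩
  · have h0 : NPC.Poly (fun y : List Bool => y) := NPC.Poly.id
    exact IsP.isNP ⟨fun y => y, IsFP.of_poly h0, fun x => Iff.rfl⟩
  · rw [pow_one, one_mul]
    simp
  · rw [h2 a]
    change _ ↔ [b a] = [true]
    rw [List.cons.injEq, and_iff_left rfl]

theorem final (p : ℕ → unitInterval) :
    ((∃ δ : ℝ, 0 < δ ∧ ¬ Summable fun n : ℕ =>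
        if min (p n : ℝ) (1 - p n) ≤ (n : ℝ) ^ (-δ) then (2 : ℝ) ^ n * min (p n : ℝ) (1 - p n)
        else 0) →
      ∀ E : Oracle, ∀ᵐ A ∂(rnd fun x => p x.length),
        InW 1 (join A E) (fun I : WInst 1 => I.1.param) (fun I => I.1.Sat (join A E)) ∧
        ¬ InM1n (join A E) (fun I : WInst 1 => I.1.param) (fun I => I.1.Sat (join A E))) ∧
    ((∀ δ : ℝ, 0 < δ → Summable fun n : ℕ =>
        if min (p n : ℝ) (1 - p n) ≤ (n : ℝ) ^ (-δ) then (2 : ℝ) ^ n * min (p n : ℝ) (1 - p n)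
        else 0) →
      ∃ E : Oracle, ∀ᵐ A ∂(rnd fun x => p x.length), ∀ (α : Type) [TEnc α] (κ : α → ℕ)
        (P : α → Prop), InW 1 (join A E) κ P →
          InFPTn (join A E) κ P ∧ InM1n (join A E) κ P) := by
  constructor
  · rintro ⟨δ, hδ, h⟩ E
    filter_upwards [hard p hδ h E] with A hA
    exact ⟨mc_inW 1 (join A E), hA⟩
  · intro h
    obtain ⟨E, hE⟩ := easy (p := p) h
    refine ⟨E, ?_⟩
    filter_upwards [hE] with A hA α _ κ P hP
    have h1 := hA α κ P hP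
    exact ⟨h1, inM1n_of_inFPTn h1⟩

end Pool.Agent.H20PW
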