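import Pool.Agent.H20PW.Res
import Pool.Agent.H20RD.Easy
import Mathlib.Analysis.SpecialFunctions.Pow.Real

/-!
# The lengths where the random oracle is almost constant, and the other lengths
-/

set_option autoImplicit false

namespace Pool.Agent.H20PW

open Filter MeasureTheory Pool.Agent.NPC Pool.Agent.H620R2.Gauge
open Pool.Agent.H20RD (DepOn rnd w w_nonneg Orc lik w_lik rnd_one)
open scoped ENNReal

/-- the probability of the less likely value -/
noncomputable def mn (p : unitInterval) : ℝ := min (p : ℝ) (1 - p)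

theorem mn_nonneg (p : unitInterval) : 0 ≤ mn p := by
  unfold mn
  rw [← w_lik]
  exact w_nonneg _ _

theorem mn_le_one (p : unitInterval) : mn p ≤ 1 := (min_le_left _ _).trans p.2.2

theorem mn_le_w (p : unitInterval) (β : Bool) : mn p ≤ w β p := by
  unfold mn w
  cases β
  · simp
  · simp

/-- the sum over the lengths `n` with `mn (p n) ≤ n ^ (-δ)` -/
noncomputable def tm (p : ℕ → unitInterval) (δ : ℝ) (n : ℕ) : ℝ :=
  if mn (p n) ≤ (n : ℝ) ^ (-δ) then 2 ^ n * mn (p n) else 0

/-- the lengths where the oracle is almost constant -/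
def Sp (p : ℕ → unitInterval) (n : ℕ) : Prop := mn (p n) ≤ (n : ℝ) ^ (-1 : ℝ)

/-- the densities on the other lengths -/
theorem dens {p : ℕ → unitInterval} (h : ∀ δ : ℝ, 0 < δ → Summable (tm p δ)) (W : ℕ) :
    ∃ C : ℕ, 1 ≤ C ∧ ∀ n, ¬ Sp p n → 1 ≤ C * (n + 1) * mn (p n) ^ W := by
  classical
  have hpos : ∀ n, ¬ Sp p n → 0 < mn (p n) := by
    intro n hn
    refine lt_of_le_of_ne (mn_nonneg _) fun h0 => hn ?_
    unfold Sp
    rw [← h0]
    exact Real.rpow_nonneg (by positivity) _
  -- almost all lengths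
  have hev : ∃ n₀ : ℕ, ∀ n ≥ n₀, ¬ Sp p n → 1 ≤ (n + 1) * mn (p n) ^ W := by
    rcases Nat.eq_zero_or_pos W with rfl | hW
    · refine ⟨0, fun n _ _ => ?_⟩
      rw [pow_zero, mul_one]
      have : (0 : ℝ) ≤ n := by positivity
      linarith
    have hδ : (0 : ℝ) < 1 / W := by positivity
    have h1 := (h _ hδ).tendsto_atTop_zero.eventually (gt_mem_nhds (zero_lt_one (α := ℝ)))
    obtain ⟨n₀, hn₀⟩ := eventually_atTop.1 (h1.and (eventually_ge_atTop 1))
    refine ⟨n₀, fun n hn hsp => ?_⟩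
    obtain ⟨h2, h3⟩ := hn₀ n hn
    have hn1 : (1 : ℝ) ≤ n := by exact_mod_cast h3
    have hn0 : (0 : ℝ) < n := by linarith
    have h4 : ¬ mn (p n) ≤ (n : ℝ) ^ (-(1 / W : ℝ)) := by
      intro h5
      unfold tm at h2
      rw [if_pos h5] at h2
      unfold Sp at hsp
      rw [not_le, Real.rpow_neg_one] at hsp
      have h6 : (n : ℝ) < 2 ^ n := by exact_mod_cast Nat.lt_two_pow_self (n := n)
      have h7 : (n : ℝ) * (n : ℝ)⁻¹ < 2 ^ n * mn (p n) :=
        mul_lt_mul'' h6 hsp hn0.le (by positivity)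
      rw [mul_inv_cancel₀ hn0.ne'] at h7
      linarith
    rw [not_le] at h4
    have h5 : ((n : ℝ) ^ (-(1 / W : ℝ))) ^ W ≤ mn (p n) ^ W :=
      pow_le_pow_left₀ (Real.rpow_nonneg hn0.le _) h4.le _
    have h6 : ((n : ℝ) ^ (-(1 / W : ℝ))) ^ W = (n : ℝ)⁻¹ := by
      rw [← Real.rpow_natCast, ← Real.rpow_mul hn0.le]
      have hW' : (W : ℝ) ≠ 0 := by positivity
      have : -(1 / W : ℝ) * W = -1 := by field_simp
      rw [this, Real.rpow_neg_one]
    rw [h6] at h5
    have h7 : (n + 1) * (n : ℝ)⁻¹ ≤ (n + 1) * mn (p n) ^ W :=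
      mul_le_mul_of_nonneg_left h5 (by positivity)
    have h8 : 1 ≤ (n + 1) * (n : ℝ)⁻¹ := by
      rw [add_mul, mul_inv_cancel₀ hn0.ne']
      have : 0 < 1 * (n : ℝ)⁻¹ := by positivity
      linarith
    linarith
  obtain ⟨n₀, hn₀⟩ := hev
  -- the other lengths
  have hc : ∀ n : ℕ, ∃ c : ℕ, ¬ Sp p n → 1 ≤ c * mn (p n) ^ W := by
    intro n
    by_cases hn : Sp p n
    · exact ⟨0, fun h => absurd hn h⟩
    · have h1 : 0 < mn (p n) ^ W := pow_pos (hpos n hn) _
      obtain ⟨c, hc⟩ := exists_nat_ge (1 / mn (p n) ^ W)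
      refine ⟨c, fun _ => ?_⟩
      rwa [div_le_iff₀ h1] at hc
  choose c hc using hc
  refine ⟨1 + ∑ n ∈ Finset.range n₀, c n, by omega, fun n hsp => ?_⟩
  have hm : 0 ≤ mn (p n) ^ W := pow_nonneg (mn_nonneg _) _
  have hn0 : (0 : ℝ) ≤ n := by positivity
  by_cases hn : n < n₀
  · have h1 : c n ≤ ∑ n ∈ Finset.range n₀, c n :=
      Finset.single_le_sum (fun _ _ => Nat.zero_le _) (Finset.mem_range.2 hn)
    have h2 : (c n : ℝ) ≤ ((1 + ∑ n ∈ Finset.range n₀, c n : ℕ) : ℝ) := by
      exact_mod_cast h1.trans (Nat.le_add_left _ _)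
    have h3 := hc n hsp
    have h4 : (c n : ℝ) * mn (p n) ^ W ≤
        ((1 + ∑ n ∈ Finset.range n₀, c n : ℕ) : ℝ) * (n + 1) * mn (p n) ^ W := by
      refine mul_le_mul_of_nonneg_right ?_ hm
      have h5 : (0 : ℝ) ≤ ((1 + ∑ n ∈ Finset.range n₀, c n : ℕ) : ℝ) := by positivity
      nlinarith
    linarith
  · have h1 := hn₀ n (not_lt.1 hn) hsp
    have h2 : (1 : ℝ) ≤ ((1 + ∑ n ∈ Finset.range n₀, c n : ℕ) : ℝ) := by
      push_cast
      have : (0 : ℝ) ≤ ∑ n ∈ Finset.range n₀, (c n : ℝ) := by positivity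
      linarith
    have h3 : (n + 1) * mn (p n) ^ W ≤
        ((1 + ∑ n ∈ Finset.range n₀, c n : ℕ) : ℝ) * (n + 1) * mn (p n) ^ W := by
      refine mul_le_mul_of_nonneg_right ?_ hm
      nlinarith
    linarith

/-- only finitely many exceptions -/
theorem ae_finite' {p : ℕ → unitInterval} (h : Summable (tm p 1)) :
    ∀ᵐ A ∂(rnd fun x => p x.length),
      {x : List Bool | Sp p x.length ∧ A x ≠ lik (p x.length)}.Finite := by
  classical
  refine ae_finite_setOfPred_mem
    (s := fun x : List Bool => {A : Orc | Sp p x.length ∧ A x ≠ lik (p x.length)}) ?_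
  have h1 : ∀ x : List Bool,
      (rnd fun x => p x.length) {A : Orc | Sp p x.length ∧ A x ≠ lik (p x.length)} ≤
        ENNReal.ofReal (if Sp p x.length then mn (p x.length) else 0) := by
    intro x
    by_cases hx : Sp p x.length
    · rw [if_pos hx]
      unfold mn
      rw [← w_lik, ← rnd_one (fun x => p x.length) _ x, ofReal_measureReal]
      refine measure_mono ?_
      rintro A ⟨_, hA⟩
      simp only [Set.mem_ofPred_eq]
      revert hA
      cases A x <;> cases lik (p x.length) <;> simp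
    · have e : {A : Orc | Sp p x.length ∧ A x ≠ lik (p x.length)} = ∅ := by
        ext A
        simp [hx]
      rw [e, measure_empty]
      exact zero_le
  refine ne_top_of_le_ne_top ?_ (ENNReal.tsum_le_tsum h1)
  rw [← (Equiv.sigmaFiberEquiv (List.length (α := Bool))).tsum_eq, ENNReal.tsum_sigma']
  have h2 : ∀ n, ∑' x : {x : List Bool // x.length = n},
      ENNReal.ofReal (if Sp p ((Equiv.sigmaFiberEquiv (List.length (α := Bool))) ⟨n, x⟩).length then
        mn (p ((Equiv.sigmaFiberEquiv (List.length (α := Bool))) ⟨n, x⟩).length) else 0) =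
      ENNReal.ofReal (tm p 1 n) := by
    intro n
    have h3 : ∀ x : {x : List Bool // x.length = n},
        ((Equiv.sigmaFiberEquiv (List.length (α := Bool))) ⟨n, x⟩).length = n := fun x => x.2
    simp only [h3]
    let _ : Fintype {x : List Bool // x.length = n} := inferInstanceAs (Fintype (List.Vector Bool n))
    rw [tsum_fintype, Finset.sum_const, Finset.card_univ,
      show Fintype.card {x : List Bool // x.length = n} = 2 ^ n from by
        have := card_vector (α := Bool) n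
        rwa [Fintype.card_bool] at this, nsmul_eq_mul]
    unfold tm
    by_cases hsp : Sp p n
    · rw [if_pos hsp, if_pos (show mn (p n) ≤ (n : ℝ) ^ (-(1 : ℝ)) from hsp),
        ENNReal.ofReal_mul (by positivity)]
      congr 1
      rw [ENNReal.ofReal_pow (by norm_num)]
      simp
    · rw [if_neg hsp, if_neg (show ¬ mn (p n) ≤ (n : ℝ) ^ (-(1 : ℝ)) from hsp)]
      simp
  simp only [h2]
  have h0 : ∀ n, 0 ≤ tm p 1 n := by
    intro n
    unfold tm
    split_ifs
    · exact mul_nonneg (by positivity) (mn_nonneg _)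
    · exact le_rfl
  rw [← ENNReal.ofReal_tsum_of_nonneg h0 h]
  exact ENNReal.ofReal_ne_top

end Pool.Agent.H20PW
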