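import Pool.Agent.H20PW.Size
import Pool.Agent.H20RD.Blocks

/-!
# Few changes of the oracle are found by a reduction to a problem in `M[1]`
-/

set_option autoImplicit false

namespace Pool.Agent.H20PW

open Pool.Agent.NPC Pool.Agent.H620R2.Gauge Pool.Agent.Y626.WG
open Pool.Agent.TH678.GC (join)
open Pool.Agent.Y581.WN (Badm)

/-- the error depends on short strings only -/
theorem loc_badm (M N : Alg) (q : Polynomial ℕ) (σ : List Bool) (H c : ℕ) (x : Inst)
    (hx : ∃ b : ℕ, ∀ B B' : Oracle, (∀ y : List Bool, y.length ≤ b → B y = B' y) →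
      (x.Sat B ↔ x.Sat B')) :
    ∃ b : ℕ, ∀ B B' : Oracle, (∀ y : List Bool, y.length ≤ b → B y = B' y) →
      (Badm M N q σ H c x B ↔ Badm M N q σ H c x B') := by
  obtain ⟨b₀, hb₀⟩ := hx
  obtain ⟨qM, hqM⟩ := M.out_local
  obtain ⟨qN, hqN⟩ := N.out_local
  set ρ : ℕ := (H * (Nat.log 2 (bits x).length + 1)) ^ c with hρ
  set b₁ : ℕ := qM.eval (pairBits σ (bits x)).length with hb₁
  set b₂ : ℕ := qN.eval (2 * q.eval ρ + 1 + ρ) with hb₂
  refine ⟨b₀ + b₁ + b₂, ?_⟩
  have key : ∀ B B' : Oracle, (∀ y : List Bool, y.length ≤ b₀ + b₁ + b₂ → B y = B' y) →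
      Badm M N q σ H c x B → Badm M N q σ H c x B' := by
    intro B B' hag hbad
    rintro ⟨r, h8, h9, h10⟩
    apply hbad
    have e1 : M.out B' (pairBits σ (bits x)) = M.out B (pairBits σ (bits x)) := by
      obtain ⟨Q, _, h11, h12⟩ := hqM B (pairBits σ (bits x))
      refine h12 B' fun z hz => (hag z ?_).symm
      have := h11 z hz
      omega
    have e2 : ∀ w : List Bool, w.length ≤ q.eval r.length →
        N.out B' (pairBits w r) = N.out B (pairBits w r) := by
      intro w hw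
      obtain ⟨Q, _, h11, h12⟩ := hqN B (pairBits w r)
      refine h12 B' fun z hz => (hag z ?_).symm
      have h13 := h11 z hz
      have h14 : qN.eval (pairBits w r).length ≤ b₂ := by
        refine Pool.Agent.Y581.WN.eval_mono' _ ?_
        rw [length_pairBits]
        have h16 : r.length ≤ ρ := h9
        have h15 := hw.trans (Pool.Agent.Y581.WN.eval_mono' q h16)
        omega
      omega
    have e3 : x.Sat B ↔ x.Sat B' := hb₀ B B' fun y hy => hag y (by omega)
    refine ⟨r, e1 ▸ h8, h9, ?_⟩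
    rw [e3, h10]
    constructor
    · rintro ⟨w, h11, h12⟩
      exact ⟨w, h11, by rw [← e2 w h11]; exact h12⟩
    · rintro ⟨w, h11, h12⟩
      exact ⟨w, h11, by rw [e2 w h11]; exact h12⟩
  exact fun B B' h => ⟨key B B' h, key B' B fun y hy => (h y hy).symm⟩

/-- the truth of the test instances depends on short strings only -/
theorem loc_ins (k g ν : ℕ) (β : Bool) (c0 : List Bool) (sf : ℕ → List Bool) {b : ℕ}
    (h : ∀ i < g, c0.length + k * ν + (sf i).length ≤ b) {B B' : Oracle}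
    (hB : ∀ y : List Bool, y.length ≤ b → B y = B' y) :
    (ins k g ν β c0 sf).Sat B ↔ (ins k g ν β c0 sf).Sat B' := by
  rw [sat_ins, sat_ins]
  refine exists_congr fun w => and_congr_right fun hw => forall₂_congr fun i hi => ?_
  rw [hB]
  have := h i hi
  simp only [List.length_append]
  omega

/-- **Few changes of the oracle are found.** -/
theorem few (M N : Alg) (q : Polynomial ℕ) (σ : List Bool) (H c : ℕ) (x : Inst) {T : ℕ}
    (hT : M.p.eval (pairBits σ (bits x)).length ≤ T) {n : ℕ}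
    (hshort : ∀ r w : List Bool, r.length ≤ (H * (Nat.log 2 (bits x).length + 1)) ^ c →
      w.length ≤ q.eval r.length → ∀ A : Oracle, ∃ Q : Finset (List Bool),
        (∀ z ∈ Q, z.length ≤ n) ∧ ∀ A' : Oracle, (∀ z ∈ Q, A' z = A z) →
          N.out A' (pairBits w r) = N.out A (pairBits w r))
    (B : Oracle) (h0 : ¬ Badm M N q σ H c x B) (hs0 : ¬ x.Sat B)
    (P : Finset (List Bool)) (F : List Bool → Oracle)
    (hF : ∀ t ∈ P, ∀ t' ∈ P, ∀ y, F t y ≠ B y → F t' y ≠ B y → t = t')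
    (hlen : ∀ t ∈ P, ∀ y, F t y ≠ B y → n < y.length)
    (hsat : ∀ t ∈ P, x.Sat (F t)) (hok : ∀ t ∈ P, ¬ Badm M N q σ H c x (F t)) :
    P.card ≤ T := by
  classical
  obtain ⟨qM, hqM⟩ := M.out_local
  unfold Badm at h0
  rw [not_not] at h0
  obtain ⟨r, hr1, hr2, hr3⟩ := h0
  obtain ⟨Q, hQ1, _, hQ3⟩ := hqM B (pairBits σ (bits x))
  have hex : ∀ t ∈ P, ∃ y ∈ Q, F t y ≠ B y := by
    intro t ht
    by_contra hc
    push Not at hc
    have h1 := hok t ht
    unfold Badm at h1
    rw [not_not] at h1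
    obtain ⟨r', h2, h3, h4⟩ := h1
    rw [hQ3 (F t) hc, hr1, Option.some.injEq] at h2
    subst h2
    obtain ⟨w, h5, h6⟩ := h4.1 (hsat t ht)
    apply hs0
    rw [hr3]
    refine ⟨w, h5, ?_⟩
    obtain ⟨Q', h7, h8⟩ := hshort r w hr2 h5 (F t)
    rw [← h6]
    refine h8 B fun z hz => ?_
    by_contra hne
    have h9 := hlen t ht z (Ne.symm hne)
    have h10 := h7 z hz
    omega
  choose! f hf1 hf2 using hex
  refine (Finset.card_le_card_of_injOn f (fun t ht => hf1 t ht) ?_).trans (hQ1.trans hT)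
  intro t ht t' ht' he
  rw [Finset.mem_coe] at ht ht'
  refine hF t ht t' ht' (f t) (hf2 t ht) ?_
  rw [he]
  exact hf2 t' ht'

/-- the questions of short inputs are short -/
theorem short_N (N : Alg) (q : Polynomial ℕ) (H c D : ℕ) : ∀ᶠ n : ℕ in Filter.atTop,
    ∀ ℓ : ℕ, ℓ ≤ D * n ^ 2 → ∀ r w : List Bool, r.length ≤ (H * (Nat.log 2 ℓ + 1)) ^ c →
      w.length ≤ q.eval r.length → ∀ A : Oracle, ∃ Q : Finset (List Bool),
        (∀ z ∈ Q, z.length ≤ n) ∧ ∀ A' : Oracle, (∀ z ∈ Q, A' z = A z) →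
          N.out A' (pairBits w r) = N.out A (pairBits w r) := by
  obtain ⟨qN, hqN⟩ := N.out_local
  set ρ' : Polynomial ℕ := (Polynomial.C H * (Polynomial.C 3 * Polynomial.X + 1)) ^ c with hρ'
  set F : Polynomial ℕ := qN.comp (2 * q.comp ρ' + 1 + ρ') with hF
  filter_upwards [Pool.Agent.Y581.WN.log_small F, Filter.eventually_ge_atTop (D + 1)]
    with n hF' hn ℓ hℓ r w hr hw A
  obtain ⟨Q, _, h10, h11⟩ := hqN A (pairBits w r)
  refine ⟨Q, fun z hz => (h10 z hz).trans (le_trans ?_ hF'), h11⟩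
  have hlog : Nat.log 2 ℓ ≤ 3 * (Nat.log 2 n + 1) := by
    have h1 : ℓ ≤ n ^ 3 := by
      calc ℓ ≤ D * n ^ 2 := hℓ
        _ ≤ n * n ^ 2 := Nat.mul_le_mul_right _ (by omega)
        _ = n ^ 3 := by ring
    have h2 : n < 2 ^ (Nat.log 2 n + 1) := Nat.lt_pow_succ_log_self (by norm_num) n
    have h3 : ℓ ≤ 2 ^ (3 * (Nat.log 2 n + 1)) := by
      calc ℓ ≤ n ^ 3 := h1
        _ ≤ (2 ^ (Nat.log 2 n + 1)) ^ 3 := Nat.pow_le_pow_left h2.le 3
        _ = _ := by rw [← pow_mul, mul_comm]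
    have h4 := Nat.log_mono_right (b := 2) h3
    rwa [Nat.log_pow (by norm_num)] at h4
  have h20 : r.length ≤ ρ'.eval (Nat.log 2 n + 1) := by
    refine hr.trans ?_
    rw [hρ', Polynomial.eval_pow, Polynomial.eval_mul, Polynomial.eval_C, Polynomial.eval_add,
      Polynomial.eval_one, Polynomial.eval_mul, Polynomial.eval_C, Polynomial.eval_X]
    exact Nat.pow_le_pow_left (Nat.mul_le_mul_left _ (Nat.add_le_add_right hlog _)) _
  rw [hF, Polynomial.eval_comp]
  refine Pool.Agent.Y581.WN.eval_mono' _ ?_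
  have h22 := hw.trans (Pool.Agent.Y581.WN.eval_mono' q h20)
  rw [length_pairBits]
  simp only [Polynomial.eval_add, Polynomial.eval_mul, Polynomial.eval_ofNat,
    Polynomial.eval_comp, Polynomial.eval_one]
  omega

end Pool.Agent.H20PW
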