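import Pool.Agent.H20PW.Hard

/-!
# The hard side: all reductions
-/

set_option autoImplicit false

namespace Pool.Agent.H20PW

open Filter MeasureTheory Pool.Agent.NPC Pool.Agent.H620R2.Gauge Pool.Agent.Y626.WG
open Pool.Agent.TH678.GC (join)
open Pool.Agent.TH678.RS (ev_poly)
open Pool.Agent.Y581.WN (Badm InM1n)
open Pool.Agent.H20RD (w w_nonneg rnd)

theorem split_kinds {β : Bool} {p : ℕ → unitInterval} {δ : ℝ} (hδ : 0 < δ) (k : ℕ)
    (h : ¬ Summable fun n : ℕ => if w β (p n) ≤ (n : ℝ) ^ (-δ) then 2 ^ n * w β (p n) else 0) :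
    ∃ (κ : ℕ) (S : ℕ → Prop) (_ : DecidablePred S), Kind1 β p k κ S ∧
      ¬ Summable fun n => if S n then 2 ^ n * w β (p n) else 0 := by
  classical
  obtain ⟨κ, hκ⟩ := exists_nat_ge ((k + 2 : ℝ) / δ)
  have hκ' : (k + 2 : ℝ) ≤ δ * (κ + 1) := by
    rw [div_le_iff₀ hδ] at hκ
    nlinarith
  by_contra hc
  push Not at hc
  have h0 := hc 0 (fun n => w β (p n) ≤ (n : ℝ) ^ (-δ) ∧ w β (p n) ^ (0 + 1) * (n : ℝ) ^ (k + 2) ≤ 1)
    (Classical.decPred _) ⟨Eventually.of_forall fun n hn => hn.2,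
      Eventually.of_forall fun n _ => Or.inl rfl⟩
  have h1 := hc κ (fun n => w β (p n) ≤ (n : ℝ) ^ (-δ) ∧
    ¬ w β (p n) ^ (0 + 1) * (n : ℝ) ^ (k + 2) ≤ 1) (Classical.decPred _) ⟨by
      filter_upwards [eventually_ge_atTop 1] with n hn1 hn
      have hn1' : (1 : ℝ) ≤ n := by exact_mod_cast hn1
      have hn0 : (0 : ℝ) < n := by linarith
      have e1 : w β (p n) ^ (κ + 1) ≤ ((n : ℝ) ^ (-δ)) ^ (κ + 1) :=
        pow_le_pow_left₀ (w_nonneg _ _) hn.1 _
      have e2 : ((n : ℝ) ^ (-δ)) ^ (κ + 1) = (n : ℝ) ^ (-δ * (κ + 1)) := by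
        rw [Real.rpow_mul hn0.le]
        have : ((κ : ℝ) + 1) = ((κ + 1 : ℕ) : ℝ) := by push_cast; ring
        rw [this, Real.rpow_natCast]
      have e3 : (n : ℝ) ^ (-δ * (κ + 1)) * (n : ℝ) ^ (k + 2) = (n : ℝ) ^ (-δ * (κ + 1) + (k + 2)) := by
        have e4 : (n : ℝ) ^ (k + 2) = (n : ℝ) ^ ((k : ℝ) + 2) := by
          have : ((k : ℝ) + 2) = ((k + 2 : ℕ) : ℝ) := by push_cast; ring
          rw [this, Real.rpow_natCast]
        rw [e4, ← Real.rpow_add hn0]
      have e5 : (n : ℝ) ^ (-δ * (κ + 1) + (k + 2)) ≤ 1 :=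
        Real.rpow_le_one_of_one_le_of_nonpos hn1' (by linarith)
      calc w β (p n) ^ (κ + 1) * (n : ℝ) ^ (k + 2)
          ≤ ((n : ℝ) ^ (-δ)) ^ (κ + 1) * (n : ℝ) ^ (k + 2) :=
            mul_le_mul_of_nonneg_right e1 (by positivity)
        _ ≤ 1 := by rw [e2, e3]; exact e5, by
      filter_upwards [ev_poly (2 ^ κ) ((k + 2) * (κ + 1)), eventually_ge_atTop (κ + 1)]
        with n hn2 hn3 hn
      right
      have h2 := hn.2
      rw [not_le, zero_add, pow_one] at h2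
      have hn0 : (0 : ℝ) < n := by
        have : 0 < n := by omega
        exact_mod_cast this
      have h3 : 1 < w β (p n) ^ (κ + 1) * (n : ℝ) ^ ((k + 2) * (κ + 1)) := by
        have := one_lt_pow₀ h2 (Nat.succ_ne_zero κ)
        rwa [mul_pow, ← pow_mul] at this
      have h4 : n ^ ((k + 2) * (κ + 1)) < 2 ^ (n - κ) := by
        have h5 : 2 ^ κ * n ^ ((k + 2) * (κ + 1)) < 2 ^ κ * 2 ^ (n - κ) := by
          rw [← pow_add]
          have e : κ + (n - κ) = n := by omega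
          rw [e]
          refine lt_of_le_of_lt (Nat.mul_le_mul_left _ (Nat.pow_le_pow_left ?_ _)) hn2
          omega
        exact lt_of_mul_lt_mul_left h5 (by positivity)
      have h4' : (n : ℝ) ^ ((k + 2) * (κ + 1)) < 2 ^ (n - κ) := by exact_mod_cast h4
      have h6 : w β (p n) ^ (κ + 1) * (n : ℝ) ^ ((k + 2) * (κ + 1)) ≤
          w β (p n) ^ (κ + 1) * 2 ^ (n - κ) :=
        mul_le_mul_of_nonneg_left h4'.le (pow_nonneg (w_nonneg _ _) _)
      rw [mul_comm]
      linarith⟩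
  apply h
  refine (h0.add h1).congr fun n => ?_
  by_cases h2 : w β (p n) ≤ (n : ℝ) ^ (-δ)
  · by_cases h3 : w β (p n) ^ (0 + 1) * (n : ℝ) ^ (k + 2) ≤ 1
    · simp only [h2, h3, and_self, if_true, not_true_eq_false, and_false, if_false, add_zero]
    · simp only [h2, h3, and_false, if_false, not_false_eq_true, and_self, if_true, zero_add]
  · simp only [h2, false_and, if_false, add_zero]

theorem split_beta {p : ℕ → unitInterval} {δ : ℝ}
    (h : ¬ Summable fun n : ℕ => if min (p n : ℝ) (1 - p n) ≤ (n : ℝ) ^ (-δ) then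
      2 ^ n * min (p n : ℝ) (1 - p n) else 0) :
    ∃ β, ¬ Summable fun n : ℕ => if w β (p n) ≤ (n : ℝ) ^ (-δ) then 2 ^ n * w β (p n) else 0 := by
  by_contra hc
  push Not at hc
  apply h
  have hnn : ∀ β (n : ℕ), 0 ≤ (if w β (p n) ≤ (n : ℝ) ^ (-δ) then 2 ^ n * w β (p n) else 0) := by
    intro β n
    split_ifs
    · exact mul_nonneg (by positivity) (w_nonneg _ _)
    · exact le_rfl
  refine Summable.of_nonneg_of_le (fun n => ?_) (fun n => ?_) ((hc true).add (hc false))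
  · have h1 := w_nonneg true (p n)
    have h2 := w_nonneg false (p n)
    simp only [w, if_true, Bool.false_eq_true, if_false] at h1 h2
    split_ifs
    · exact mul_nonneg (by positivity) (le_min h1 h2)
    · exact le_rfl
  · have h1 := hnn true n
    have h2 := hnn false n
    by_cases h3 : min (p n : ℝ) (1 - p n) ≤ (n : ℝ) ^ (-δ)
    · rw [if_pos h3]
      rcases le_total (p n : ℝ) (1 - p n) with h4 | h4
      · rw [min_eq_left h4] at h3 ⊢
        have e : w true (p n) = p n := rfl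
        rw [e, if_pos h3]
        linarith
      · rw [min_eq_right h4] at h3 ⊢
        have e : w false (p n) = 1 - p n := rfl
        rw [e, if_pos h3]
        linarith
    · rw [if_neg h3]
      linarith

/-- **The hard side.** -/
theorem hard (p : ℕ → unitInterval) {δ : ℝ} (hδ : 0 < δ)
    (h : ¬ Summable fun n : ℕ => if min (p n : ℝ) (1 - p n) ≤ (n : ℝ) ^ (-δ) then
      2 ^ n * min (p n : ℝ) (1 - p n) else 0) (E : Oracle) :
    ∀ᵐ A ∂(rnd fun x => p x.length),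
      ¬ InM1n (join A E) (fun I : WInst 1 => I.1.param) (fun I => I.1.Sat (join A E)) := by
  classical
  obtain ⟨β, hβ⟩ := split_beta h
  have hcn := CC.poly_countable
  have hc2 : Countable Alg := Alg.countable
  choose κ S hdec hS1 hS2 using fun M : Alg => split_kinds hδ (kf M) hβ
  have hall : ∀ᵐ A ∂(rnd fun x => p x.length), ∀ e : Alg × Alg × Polynomial ℕ × List Bool × ℕ × ℕ,
      ∃ x : Inst, x.IsW 1 ∧ x.param = prm (kf e.1) (κ e.1 + 1) ∧
        Badm e.1 e.2.1 e.2.2.1 e.2.2.2.1 e.2.2.2.2.1 e.2.2.2.2.2 x (join A E) := by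
    rw [ae_all_iff]
    intro e
    exact null_good e.1 e.2.1 e.2.2.1 e.2.2.2.1 e.2.2.2.2.1 e.2.2.2.2.2 E β p (κ e.1) (S e.1)
      (hS1 e.1) (hS2 e.1)
  filter_upwards [hall] with A hA
  rintro ⟨π, h, c, M, r, L, ⟨V, q, ⟨N, hN⟩, hL⟩, hr⟩
  obtain ⟨x, hx1, hx2, hbad⟩ := hA (M, N, q, π (prm (kf M) (κ M + 1)), h (prm (kf M) (κ M + 1)), c)
  dsimp only at hx2 hbad
  have h1 := hr ⟨x, hx1⟩
  dsimp only at h1
  rw [hx2] at h1
  refine hbad ⟨r ⟨x, hx1⟩, h1.1, h1.2.1, ?_⟩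
  rw [h1.2.2, hL]
  refine exists_congr fun w => and_congr_right fun _ => ?_
  rw [hN, Option.some.injEq]

end Pool.Agent.H20PW
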