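import Pool.Agent.H20PW.Level
import Pool.Agent.H20RD.Hard
import Mathlib.Analysis.SpecialFunctions.Pow.Real

/-!
# The hard side
-/

set_option autoImplicit false

namespace Pool.Agent.H20PW

open Filter MeasureTheory Pool.Agent.NPC Pool.Agent.H620R2.Gauge Pool.Agent.Y626.WG
open Pool.Agent.TH678.GC (join pe pe_spec)
open Pool.Agent.Y581.WN (Badm)
open Pool.Agent.H20RD (cs cellC hitC hitC_eq length_cs Keeps disjoint_cellC depOn_hitC DepOn strs
  mem_strs card_strs w w_nonneg rnd rnd_hitC null_of_blocks short mem_short summable_of_min)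

/-- the choice of the number of the dummy bits -/
theorem param' (k κ : ℕ) : ∀ᶠ n : ℕ in atTop, ∀ x : ℝ, 0 ≤ x →
    x ^ (κ + 1) * (n : ℝ) ^ (k + 2) ≤ 1 → (κ = 0 ∨ 1 / 8 < 2 ^ (n - κ) * x ^ (κ + 1)) →
    ∃ j, j + κ ≤ n ∧ 2 ^ (n - κ - j) * x ^ (κ + 1) ≤ 1 / 8 ∧
      min (2 ^ n * x) (1 / 16) ≤ 2 ^ (n - κ - j) * x ^ (κ + 1) ∧
      k * (Nat.log 2 n + 1) ≤ n - κ - j := by
  classical
  have hlog : ∀ᶠ n : ℕ in atTop, k * (Nat.log 2 n + 1) ≤ n := by
    have h := Pool.Agent.Y581.WN.log_small (Polynomial.C k * Polynomial.X)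
    filter_upwards [h] with n hn
    rwa [Polynomial.eval_mul, Polynomial.eval_C, Polynomial.eval_X] at hn
  filter_upwards [hlog, eventually_ge_atTop (16 * 2 ^ k + κ + 8)] with n hn1 hn2 x hx0 hx hκ
  have hn0 : (8 : ℝ) ≤ n := by
    have : 8 ≤ n := by omega
    exact_mod_cast this
  have hx8 : x ^ (κ + 1) ≤ 1 / 8 := by
    by_contra hc
    rw [not_le] at hc
    have h1 : (8 : ℝ) ≤ (n : ℝ) ^ (k + 2) := by
      calc (8 : ℝ) ≤ n := hn0
        _ = (n : ℝ) ^ 1 := (pow_one _).symm
        _ ≤ (n : ℝ) ^ (k + 2) := pow_le_pow_right₀ (by linarith) (by omega)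
    have h2 : (1 / 8 : ℝ) * 8 < x ^ (κ + 1) * (n : ℝ) ^ (k + 2) :=
      mul_lt_mul hc h1 (by norm_num) (pow_nonneg hx0 _)
    linarith
  have hex : ∃ j, 2 ^ (n - κ - j) * x ^ (κ + 1) ≤ 1 / 8 := by
    refine ⟨n - κ, ?_⟩
    rw [Nat.sub_self, pow_zero, one_mul]
    exact hx8
  have hj := Nat.find_spec hex
  set j := Nat.find hex with hjd
  have hjn : j ≤ n - κ := Nat.find_min' hex (by
    rw [Nat.sub_self, pow_zero, one_mul]
    exact hx8)
  refine ⟨j, by omega, hj, ?_, ?_⟩
  · rcases Nat.eq_zero_or_pos j with hj0 | hj0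
    · rcases hκ with rfl | hκ
      · rw [hj0]
        simp
      · rw [hj0, Nat.sub_zero] at hj
        linarith
    · have h2 := Nat.find_min hex (m := j - 1) (by omega)
      rw [not_le] at h2
      have h3 : n - κ - (j - 1) = (n - κ - j) + 1 := by omega
      rw [h3, pow_succ] at h2
      refine (min_le_right _ _).trans ?_
      linarith
  · rcases Nat.eq_zero_or_pos j with hj0 | hj0
    · rcases hκ with rfl | hκ
      · rw [hj0]
        omega
      · rw [hj0, Nat.sub_zero] at hj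
        linarith
    · have h2 := Nat.find_min hex (m := j - 1) (by omega)
      rw [not_le] at h2
      have h3 : n - κ - (j - 1) = (n - κ - j) + 1 := by omega
      rw [h3, pow_succ] at h2
      have h4 : (n : ℝ) ^ (k + 2) < 16 * 2 ^ (n - κ - j) := by
        by_contra hc
        rw [not_lt] at hc
        have h5 : 16 * 2 ^ (n - κ - j) * x ^ (κ + 1) ≤ (n : ℝ) ^ (k + 2) * x ^ (κ + 1) :=
          mul_le_mul_of_nonneg_right hc (pow_nonneg hx0 _)
        have h6 : (n : ℝ) ^ (k + 2) * x ^ (κ + 1) = x ^ (κ + 1) * (n : ℝ) ^ (k + 2) := mul_comm _ _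
        linarith
      have h5 : n ^ (k + 2) < 16 * 2 ^ (n - κ - j) := by exact_mod_cast h4
      have h6 : 2 ^ (Nat.log 2 n + 1) ≤ 2 * n := Pool.Agent.Y581.WN.pow_log_le (by omega)
      have h7 : 16 * 2 ^ (k * (Nat.log 2 n + 1)) ≤ n ^ (k + 2) := by
        calc 16 * 2 ^ (k * (Nat.log 2 n + 1)) = 16 * (2 ^ (Nat.log 2 n + 1)) ^ k := by
              rw [← pow_mul, mul_comm k]
          _ ≤ 16 * (2 * n) ^ k := Nat.mul_le_mul_left _ (Nat.pow_le_pow_left h6 _)
          _ = (16 * 2 ^ k) * n ^ k := by rw [mul_pow]; ring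
          _ ≤ n * n ^ k := Nat.mul_le_mul_right _ (by omega)
          _ = n ^ (k + 1) := by rw [pow_succ, mul_comm]
          _ ≤ n ^ (k + 2) := Nat.pow_le_pow_right (by omega) (by omega)
      have h8 : 2 ^ (k * (Nat.log 2 n + 1)) < 2 ^ (n - κ - j) := by omega
      exact ((Nat.pow_lt_pow_iff_right (by norm_num)).1 h8).le

/-- the lengths of one kind -/
structure Kind1 (β : Bool) (p : ℕ → unitInterval) (k κ : ℕ) (S : ℕ → Prop) : Prop where
  small : ∀ᶠ n : ℕ in atTop, S n → w β (p n) ^ (κ + 1) * (n : ℝ) ^ (k + 2) ≤ 1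
  big : ∀ᶠ n : ℕ in atTop, S n → κ = 0 ∨ 1 / 8 < 2 ^ (n - κ) * w β (p n) ^ (κ + 1)

/-- **Machines fail at some length.** -/
theorem null_good (M N : Alg) (q : Polynomial ℕ) (σ : List Bool) (H c : ℕ) (E : Oracle)
    (β : Bool) (p : ℕ → unitInterval) (κ : ℕ) (S : ℕ → Prop) [DecidablePred S]
    (hS : Kind1 β p (kf M) κ S)
    (hs : ¬ Summable fun n => if S n then 2 ^ n * w β (p n) else 0) :
    ∀ᵐ A ∂(rnd fun x => p x.length), ∃ x : Inst, x.IsW 1 ∧ x.param = prm (kf M) (κ + 1) ∧
      Badm M N q σ H c x (join A E) := by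
  classical
  obtain ⟨n₀, hn₀⟩ := eventually_atTop.1 ((param' (kf M) κ).and (hS.small.and (hS.big.and
    (level M N q σ H c E β κ))))
  have hpar : ∀ n : ℕ, ∃ j : ℕ, n₀ ≤ n → S n → j + κ ≤ n ∧
      2 ^ (n - κ - j) * w β (p n) ^ (κ + 1) ≤ 1 / 8 ∧
      min (2 ^ n * w β (p n)) (1 / 16) ≤ 2 ^ (n - κ - j) * w β (p n) ^ (κ + 1) ∧
      kf M * (Nat.log 2 n + 1) ≤ n - κ - j := by
    intro n
    by_cases h : n₀ ≤ n ∧ S n
    · obtain ⟨h1, h2, h3, _⟩ := hn₀ n h.1
      obtain ⟨j, hj⟩ := h1 (w β (p n)) (w_nonneg _ _) (h2 h.2) (h3 h.2)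
      exact ⟨j, fun _ _ => hj⟩
    · exact ⟨0, fun h1 h2 => absurd ⟨h1, h2⟩ h⟩
  choose j hj using hpar
  set m : ℕ → ℕ := fun n => n - κ - j n with hm
  set l : ℕ → ℕ := fun n => m n - kf M * (Nat.log 2 n + 1) with hl
  set cells : ℕ → Finset (List Bool) := fun n =>
    if n₀ ≤ n ∧ S n then strs (m n) else ∅ with hcells
  have hcm : ∀ n, ∀ y ∈ cells n, (n₀ ≤ n ∧ S n) ∧ y.length = m n := by
    intro n y hy
    rw [hcells] at hy
    simp only at hy
    split_ifs at hy with h
    · exact ⟨h, mem_strs.1 hy⟩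
    · simp at hy
  have hmn : ∀ n, n₀ ≤ n → S n → j n + m n + κ = n := by
    intro n h1 h2
    have := (hj n h1 h2).1
    simp only [hm]
    omega
  choose ρ hρ using fun n => depOn_good M N q σ H c E β κ (Nat.log 2 n + 1) (j n) (l n)
  have hη : ∀ n, ∀ y ∈ cells n, (rnd fun x => p x.length).real (hitC β (j n) κ y) =
      w β (p n) ^ (κ + 1) := by
    intro n y hy
    obtain ⟨⟨h1, h2⟩, h3⟩ := hcm n y hy
    exact rnd_hitC p β _ _ y (by rw [h3]; exact hmn n h1 h2)
  have hlam : ∀ n, ∑ y ∈ cells n, (rnd fun x => p x.length).real (hitC β (j n) κ y) =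
      if n₀ ≤ n ∧ S n then 2 ^ m n * w β (p n) ^ (κ + 1) else 0 := by
    intro n
    rw [Finset.sum_congr rfl (hη n), Finset.sum_const, nsmul_eq_mul, hcells]
    simp only
    split_ifs with h
    · rw [card_strs]
      push_cast
      ring
    · simp
  have hmain := null_of_blocks (fun x => p x.length) cells
    (fun n => cellC (j n) κ) (fun n => hitC β (j n) κ)
    (fun n => good M N q σ H c E β κ (Nat.log 2 n + 1) (j n) (l n)) ρ
    (fun n y _ => depOn_hitC β (j n) κ y)
    (fun n y hy x hx => by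
      simp only [cellC, Finset.mem_image, Finset.mem_range] at hx
      obtain ⟨i, hi, rfl⟩ := hx
      obtain ⟨⟨h1, h2⟩, h3⟩ := hcm n y hy
      rw [length_cs (by omega), h3]
      exact hmn n h1 h2)
    (fun n y hy y' hy' h => disjoint_cellC ((hcm n y hy).2.trans (hcm n y' hy').2.symm) h)
    hρ n₀
    (fun n hn A hA hno P hP hk' => by
      by_cases hw : S n
      · have e1 : ∑ y ∈ P, (rnd fun x => p x.length).real (hitC β (j n) κ y) =
            P.card * w β (p n) ^ (κ + 1) := by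
          rw [Finset.sum_congr rfl fun y hy => hη n y (hP hy), Finset.sum_const, nsmul_eq_mul]
        rw [e1, hlam n, if_pos ⟨hn, hw⟩]
        have hno' : ∀ z : List Bool, z.length = m n → A ∉ hitC β (j n) κ z := by
          intro z hz
          apply hno
          rw [hcells]
          simp only [if_pos (show n₀ ≤ n ∧ S n from ⟨hn, hw⟩)]
          exact mem_strs.2 hz
        have h4 := (hj n hn hw).2.2.2
        have h5 := hmn n hn hw
        have e2 := (hn₀ n hn).2.2.2 (j n) (m n) (Nat.log 2 n + 1) (l n) (by omega) rfl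
          (by simp only [hl]; exact Nat.sub_add_cancel h4) A hA hno' P
          fun z hz => ⟨(hcm n z (hP hz)).2, hk' z hz⟩
        have e5 : (8 : ℝ) * P.card ≤ 2 ^ m n := by exact_mod_cast e2
        have e7 : (P.card : ℝ) ≤ (1 / 8) * 2 ^ m n := by linarith
        rw [← mul_assoc]
        exact mul_le_mul_of_nonneg_right e7 (pow_nonneg (w_nonneg _ _) _)
      · have e1 : P = ∅ := by
          rw [hcells] at hP
          simp only [if_neg (show ¬ (n₀ ≤ n ∧ S n) from fun h => hw h.2)] at hP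
          exact Finset.subset_empty.1 hP
        rw [e1, Finset.sum_empty]
        exact mul_nonneg (by norm_num) (Finset.sum_nonneg fun _ _ => measureReal_nonneg))
    (fun n hn => by
      rw [hlam n]
      split_ifs with hw
      · exact (hj n hn hw.2).2.1
      · norm_num)
    (by
      intro hsum
      apply hs
      have h1 : Summable fun n => min (if S n then 2 ^ n * w β (p n) else 0)
          (1 / 16 : ℝ) := by
        rw [← summable_nat_add_iff n₀] at hsum ⊢
        refine Summable.of_nonneg_of_le (fun n => ?_) (fun n => ?_) hsum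
        · refine le_min ?_ (by norm_num)
          split_ifs
          · exact mul_nonneg (by positivity) (w_nonneg _ _)
          · exact le_rfl
        · rw [hlam]
          by_cases hw : S (n + n₀)
          · rw [if_pos hw, if_pos ⟨by omega, hw⟩]
            exact (hj (n + n₀) (by omega) hw).2.2.1
          · rw [if_neg hw, if_neg fun h => hw h.2]
            exact min_le_left _ _
      exact summable_of_min (by norm_num) h1)
  refine measure_mono_null (fun A hA => ?_) hmain
  intro n _ u hu hbad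
  exact hA ⟨_, ins_isW _ _ _ _ _ _, ins_param _ _ _ _ _ _, hbad⟩

end Pool.Agent.H20PW
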