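import Pool.Agent.Y626.WC.Core
import Pool.Agent.H620R2.Gauge.Event

/-!
# The test instances for `W[1]`
-/

set_option autoImplicit false

namespace Pool.Agent.H20PW

open Pool.Agent.NPC Pool.Agent.H620R2.Gauge Pool.Agent.Y626.WG
open Pool.Agent.Y626.WC (sat_one)

/-- the labels -/
def lb (g ν : ℕ) (c0 : List Bool) (sf : ℕ → List Bool) (e : ℕ) : List Bool :=
  if e = 0 then c0 else if e < 1 + g then sf (e - 1) else bitsOf ν (e - 1 - g)

/-- The instance: the first `1 + g` variables are constants, the other `k` variables stand for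
strings of length `ν`. -/
def ins (k g ν : ℕ) (β : Bool) (c0 : List Bool) (sf : ℕ → List Bool) : Inst where
  labels := (List.range (1 + g + 2 ^ ν)).map (lb g ν c0 sf)
  rels := (List.range (1 + g)).map (fun r => [(r, r)]) ++
    [(List.range (2 ^ ν)).map fun i => (1 + g + i, 1 + g + i)]
  blocks := [1 + g + k]
  atoms := ((List.range (1 + g)).map (fun r => (r + 1, [r, r])) ++
    (List.range k).map (fun t => (1 + g + 1, [1 + g + t, 1 + g + t]))) ++
    (List.range g).map (fun i => (0, 0 :: ((List.range k).map (fun t => 1 + g + t) ++ [1 + i])))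
  acc := [List.replicate (1 + g + k) true ++ List.replicate g β]

/-- the parameter of the instances -/
def prm (k g : ℕ) : ℕ := (ins k g 0 true [] fun _ => []).param

theorem ins_param (k g ν : ℕ) (β : Bool) (c0 : List Bool) (sf : ℕ → List Bool) :
    (ins k g ν β c0 sf).param = prm k g := rfl

theorem ins_isW (k g ν : ℕ) (β : Bool) (c0 : List Bool) (sf : ℕ → List Bool) :
    (ins k g ν β c0 sf).IsW 1 := by
  refine ⟨⟨?_, ?_⟩, ?_⟩
  · intro h
    have h1 := congrArg List.length h
    change ((List.range (1 + g + 2 ^ ν)).map (lb g ν c0 sf)).length = _ at h1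
    rw [List.length_map, List.length_range, List.length_nil] at h1
    have hp : 0 < 2 ^ ν := by positivity
    omega
  · exact le_rfl
  · intro s hs
    change s ∈ [1 + g + k].tail at hs
    simp at hs

theorem labels_getD {k g ν : ℕ} {β : Bool} {c0 : List Bool} {sf : ℕ → List Bool} {e : ℕ}
    (he : e < 1 + g + 2 ^ ν) : (ins k g ν β c0 sf).labels.getD e [] = lb g ν c0 sf e := by
  change ((List.range (1 + g + 2 ^ ν)).map (lb g ν c0 sf)).getD e [] = _
  rw [List.getD_eq_getElem _ _ (by simpa using he)]
  simp

theorem rels_low {k g ν : ℕ} {β : Bool} {c0 : List Bool} {sf : ℕ → List Bool} {r : ℕ}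
    (hr : r < 1 + g) : (ins k g ν β c0 sf).rels.getD r [] = [(r, r)] := by
  change ((List.range (1 + g)).map (fun r => [(r, r)]) ++
    [(List.range (2 ^ ν)).map fun i => (1 + g + i, 1 + g + i)]).getD r [] = _
  rw [List.getD_append _ _ _ _ (by simpa using hr), List.getD_eq_getElem _ _ (by simpa using hr)]
  simp

theorem rels_high {k g ν : ℕ} {β : Bool} {c0 : List Bool} {sf : ℕ → List Bool} :
    (ins k g ν β c0 sf).rels.getD (1 + g) [] =
      (List.range (2 ^ ν)).map fun i => (1 + g + i, 1 + g + i) := by
  change ((List.range (1 + g)).map (fun r => [(r, r)]) ++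
    [(List.range (2 ^ ν)).map fun i => (1 + g + i, 1 + g + i)]).getD (1 + g) [] = _
  rw [List.getD_append_right _ _ _ _ (by simp)]
  simp

theorem map_eq_replicate {α β : Type} {l : List α} {f : α → β} {n : ℕ} {b : β}
    (hl : l.length = n) : l.map f = List.replicate n b ↔ ∀ a ∈ l, f a = b := by
  rw [List.eq_replicate_iff]
  simp [hl]

/-- the atoms -/
theorem atoms_iff (J : Oracle) (k g ν : ℕ) (β : Bool) (c0 : List Bool) (sf : ℕ → List Bool)
    (v : List ℕ) :
    (ins k g ν β c0 sf).atoms.map ((ins k g ν β c0 sf).atom J v) ∈ (ins k g ν β c0 sf).acc ↔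
      (∀ r < 1 + g, (ins k g ν β c0 sf).atom J v (r + 1, [r, r]) = true) ∧
      (∀ t < k, (ins k g ν β c0 sf).atom J v (1 + g + 1, [1 + g + t, 1 + g + t]) = true) ∧
      ∀ i < g, (ins k g ν β c0 sf).atom J v
        (0, 0 :: ((List.range k).map (fun t => 1 + g + t) ++ [1 + i])) = β := by
  have e1 : (ins k g ν β c0 sf).acc = [List.replicate (1 + g + k) true ++ List.replicate g β] :=
    rfl
  have e2 : (ins k g ν β c0 sf).atoms = ((List.range (1 + g)).map (fun r => (r + 1, [r, r])) ++
    (List.range k).map (fun t => (1 + g + 1, [1 + g + t, 1 + g + t]))) ++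
    (List.range g).map (fun i => (0, 0 :: ((List.range k).map (fun t => 1 + g + t) ++
      [1 + i]))) := rfl
  rw [e1, List.mem_singleton, e2, List.map_append]
  constructor
  · intro h
    obtain ⟨h1, h2⟩ := List.append_inj h (by simp)
    rw [map_eq_replicate (by simp)] at h1 h2
    refine ⟨fun r hr => h1 _ ?_, fun t ht => h1 _ ?_, fun i hi => h2 _ ?_⟩
    · exact List.mem_append_left _ (List.mem_map.2 ⟨r, List.mem_range.2 hr, rfl⟩)
    · exact List.mem_append_right _ (List.mem_map.2 ⟨t, List.mem_range.2 ht, rfl⟩)
    · exact List.mem_map.2 ⟨i, List.mem_range.2 hi, rfl⟩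
  · rintro ⟨h1, h2, h3⟩
    congr 1
    · rw [map_eq_replicate (by simp)]
      intro a ha
      rw [List.mem_append, List.mem_map, List.mem_map] at ha
      rcases ha with ⟨r, hr, rfl⟩ | ⟨t, ht, rfl⟩
      · exact h1 r (List.mem_range.1 hr)
      · exact h2 t (List.mem_range.1 ht)
    · rw [map_eq_replicate (by simp)]
      intro a ha
      rw [List.mem_map] at ha
      obtain ⟨i, hi, rfl⟩ := ha
      exact h3 i (List.mem_range.1 hi)

/-- strings whose length is a multiple of `ν` -/
theorem exists_chunks (ν : ℕ) : ∀ (k : ℕ) (w : List Bool), w.length = k * ν →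
    ∃ f : ℕ → ℕ, (∀ t, f t < 2 ^ ν) ∧ w = (List.range k).flatMap fun t => bitsOf ν (f t) := by
  intro k
  induction k with
  | zero =>
    intro w hw
    refine ⟨fun _ => 0, fun _ => by positivity, ?_⟩
    have : w.length = 0 := by rw [hw]; ring
    simpa using List.length_eq_zero_iff.1 this
  | succ k ih =>
    intro w hw
    obtain ⟨f, hf, hf2⟩ := ih (w.take (k * ν)) (by
      rw [List.length_take, hw]
      exact min_eq_left (Nat.mul_le_mul_right _ (Nat.le_succ k)))
    have hd : (w.drop (k * ν)).length = ν := by
      rw [List.length_drop, hw, Nat.succ_mul]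
      omega
    obtain ⟨j, hj, hj2⟩ := exists_bitsOf (w.drop (k * ν))
    rw [hd] at hj hj2
    refine ⟨fun t => if t = k then j else f t, fun t => ?_, ?_⟩
    · simp only
      split_ifs
      · exact hj
      · exact hf t
    · rw [List.range_succ, List.flatMap_append]
      have e1 : ((List.range k).flatMap fun t => bitsOf ν (if t = k then j else f t)) =
          (List.range k).flatMap fun t => bitsOf ν (f t) := by
        refine flatMap_congr' fun t ht => ?_
        rw [List.mem_range] at ht
        rw [if_neg (by omega)]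
      rw [e1, ← hf2]
      simp only [List.flatMap_cons, List.flatMap_nil, if_true, List.append_nil, hj2]
      exact (List.take_append_drop _ _).symm

theorem length_chunks (ν k : ℕ) (f : ℕ → ℕ) :
    ((List.range k).flatMap fun t => bitsOf ν (f t)).length = k * ν := by
  induction k with
  | zero => simp
  | succ k ih =>
    rw [List.range_succ, List.flatMap_append, List.length_append, ih]
    simp only [List.flatMap_cons, List.flatMap_nil, List.append_nil, length_bitsOf]
    ring

/-- **The meaning of the test instances.** -/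
theorem sat_ins (J : Oracle) (k g ν : ℕ) (β : Bool) (c0 : List Bool) (sf : ℕ → List Bool) :
    (ins k g ν β c0 sf).Sat J ↔
      ∃ w : List Bool, w.length = k * ν ∧ ∀ i < g, J (c0 ++ (w ++ sf i)) = β := by
  rw [sat_one (ins_isW k g ν β c0 sf)]
  have e1 : (ins k g ν β c0 sf).blocks.sum = 1 + g + k := by
    change [1 + g + k].sum = _
    simp
  have e2 : (ins k g ν β c0 sf).labels.length = 1 + g + 2 ^ ν := by
    change ((List.range (1 + g + 2 ^ ν)).map (lb g ν c0 sf)).length = _
    simp
  rw [e1, e2]
  have hp : 0 < 2 ^ ν := by positivity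
  have key : ∀ (v : List ℕ) (f : ℕ → ℕ), (∀ r < 1 + g, v.getD r 0 = r) →
      (∀ t < k, v.getD (1 + g + t) 0 = 1 + g + f t) → (∀ t < k, f t < 2 ^ ν) → ∀ i < g,
      (ins k g ν β c0 sf).atom J v (0, 0 :: ((List.range k).map (fun t => 1 + g + t) ++ [1 + i])) =
        J (c0 ++ (((List.range k).flatMap fun t => bitsOf ν (f t)) ++ sf i)) := by
    intro v f h1 h2 h3 i hi
    change J ((0 :: ((List.range k).map (fun t => 1 + g + t) ++ [1 + i])).flatMap
      fun i => (ins k g ν β c0 sf).labels.getD (v.getD i 0) []) = _
    congr 1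
    rw [List.flatMap_cons, List.flatMap_append, List.flatMap_map]
    congr 1
    · rw [h1 0 (by omega), labels_getD (by omega)]
      rfl
    · congr 1
      · refine flatMap_congr' fun t ht => ?_
        rw [List.mem_range] at ht
        have h4 := h3 t ht
        rw [h2 t ht, labels_getD (by omega)]
        unfold lb
        rw [if_neg (by omega), if_neg (by omega)]
        congr 1
        omega
      · simp only [List.flatMap_cons, List.flatMap_nil, List.append_nil]
        rw [h1 (1 + i) (by omega), labels_getD (by omega)]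
        unfold lb
        rw [if_neg (by omega), if_pos (by omega)]
        congr 1
        omega
  constructor
  · rintro ⟨v, ⟨h1, h2⟩, h3⟩
    rw [atoms_iff] at h3
    obtain ⟨h4, h5, h6⟩ := h3
    have h7 : ∀ r < 1 + g, v.getD r 0 = r := by
      intro r hr
      have h := h4 r hr
      change decide ((v.getD r 0, v.getD r 0) ∈ (ins k g ν β c0 sf).rels.getD r []) = true at h
      rw [rels_low hr, decide_eq_true_eq, List.mem_singleton, Prod.mk.injEq] at h
      exact h.1
    have h8 : ∀ t < k, ∃ i < 2 ^ ν, v.getD (1 + g + t) 0 = 1 + g + i := by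
      intro t ht
      have h := h5 t ht
      change decide ((v.getD (1 + g + t) 0, v.getD (1 + g + t) 0) ∈
        (ins k g ν β c0 sf).rels.getD (1 + g) []) = true at h
      rw [rels_high, decide_eq_true_eq, List.mem_map] at h
      obtain ⟨i, hi, h⟩ := h
      rw [Prod.mk.injEq] at h
      exact ⟨i, List.mem_range.1 hi, h.1.symm⟩
    choose! f hf1 hf2 using h8
    refine ⟨_, length_chunks ν k f, fun i hi => ?_⟩
    rw [← key v f h7 hf2 hf1 i hi]
    exact h6 i hi
  · rintro ⟨w, hw, hw2⟩
    obtain ⟨f, hf, rfl⟩ := exists_chunks ν k w hw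
    set v : List ℕ := List.range (1 + g) ++ (List.range k).map fun t => 1 + g + f t with hv
    have h7 : ∀ r < 1 + g, v.getD r 0 = r := by
      intro r hr
      rw [hv, List.getD_append _ _ _ _ (by simpa using hr),
        List.getD_eq_getElem _ _ (by simpa using hr)]
      simp
    have h8 : ∀ t < k, v.getD (1 + g + t) 0 = 1 + g + f t := by
      intro t ht
      rw [hv, List.getD_append_right _ _ _ _ (by simp), List.getD_eq_getElem _ _ (by simpa using ht)]
      simp
    refine ⟨v, ⟨by simp [hv], fun a ha => ?_⟩, ?_⟩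
    · rw [hv, List.mem_append, List.mem_map] at ha
      rcases ha with ha | ⟨t, _, rfl⟩
      · rw [List.mem_range] at ha
        omega
      · have := hf t
        omega
    · rw [atoms_iff]
      refine ⟨fun r hr => ?_, fun t ht => ?_, fun i hi => ?_⟩
      · change decide ((v.getD r 0, v.getD r 0) ∈ (ins k g ν β c0 sf).rels.getD r []) = true
        rw [rels_low hr, h7 r hr]
        simp
      · change decide ((v.getD (1 + g + t) 0, v.getD (1 + g + t) 0) ∈
          (ins k g ν β c0 sf).rels.getD (1 + g) []) = true
        rw [rels_high, h8 t ht, decide_eq_true_eq, List.mem_map]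
        exact ⟨f t, List.mem_range.2 (hf t), rfl⟩
      · rw [key v f h7 h8 (fun t _ => hf t) i hi]
        exact hw2 i hi

end Pool.Agent.H20PW
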