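import Pool.Agent.H20PW.Few

/-!
# The test instances at one length
-/

set_option autoImplicit false

namespace Pool.Agent.H20PW

open Pool.Agent.NPC Pool.Agent.H620R2.Gauge Pool.Agent.Y626.WG
open Pool.Agent.TH678.GC (join pe pe_spec)
open Pool.Agent.Y581.WN (Badm)
open Pool.Agent.H20RD (cs cellC hitC hitC_eq length_cs Keeps disjoint_cellC depOn_hitC DepOn strs
  mem_strs card_strs)

/-- the test instance for the cells with the address `u` -/
def tI (k κ ν : ℕ) (β : Bool) (j : ℕ) (u : List Bool) : Inst :=
  ins k (κ + 1) ν β (false :: (List.replicate j false ++ u))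
    (fun i => List.replicate i true ++ List.replicate (κ - i) false)

theorem sat_tI (A E : Oracle) (k κ ν : ℕ) (β : Bool) (j : ℕ) (u : List Bool) :
    (tI k κ ν β j u).Sat (join A E) ↔
      ∃ w : List Bool, w.length = k * ν ∧ A ∈ hitC β j κ (u ++ w) := by
  unfold tI
  rw [sat_ins]
  refine exists_congr fun w => and_congr_right fun _ => ?_
  have e : ∀ i, join A E ((false :: (List.replicate j false ++ u)) ++ (w ++
      (List.replicate i true ++ List.replicate (κ - i) false))) = A (cs j κ (u ++ w) i) := by
    intro i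
    change A _ = A _
    congr 1
    simp [cs]
  simp only [e]
  constructor
  · intro h i hi
    exact h i (by omega)
  · intro h i hi
    exact h i (by omega)

/-- the constant in the bound of the sizes -/
def cI (k κ : ℕ) : ℕ :=
  10 * (κ + 1 + 3) + (2 + (κ + 1)) * (16 * (κ + 1) + 60) + 6 + cpart k (κ + 1)

theorem len_tI {k κ ν : ℕ} {β : Bool} {j : ℕ} {u : List Bool} {n : ℕ} (hn : 1 ≤ n)
    (hν : ν = Nat.log 2 n + 1) (hj : j + u.length + κ ≤ n) :
    (bits (tI k κ ν β j u)).length ≤ cI k κ * n ^ 2 := by
  refine sz_ins_le hn ?_ ?_ ?_ ?_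
  · rw [hν]
    have := Nat.pow_log_le_self 2 (x := n) (by omega)
    rw [pow_succ]
    omega
  · rw [hν]
    have := Nat.log_le_self 2 n
    omega
  · simp only [List.length_cons, List.length_append, List.length_replicate]
    omega
  · intro i hi
    simp only [List.length_append, List.length_replicate]
    omega

/-- the number of the free variables -/
noncomputable def kf (M : Alg) : ℕ := 2 * pe M + 1

theorem time_tI (M : Alg) (σ : List Bool) (κ : ℕ) : ∀ᶠ n : ℕ in Filter.atTop,
    ∀ ℓ : ℕ, ℓ ≤ 2 * σ.length + 1 + cI (kf M) κ * n ^ 2 →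
      8 * M.p.eval ℓ ≤ 2 ^ (kf M * (Nat.log 2 n + 1)) := by
  set D : ℕ := 2 * σ.length + 3 + cI (kf M) κ with hD
  filter_upwards [Filter.eventually_ge_atTop (8 * D ^ pe M + 1)] with n hn ℓ hℓ
  have h1 : ℓ + 2 ≤ D * n ^ 2 := by
    have h2 : 1 ≤ n ^ 2 := Nat.one_le_pow _ _ (by omega)
    rw [hD]
    nlinarith
  have h3 : M.p.eval ℓ ≤ D ^ pe M * n ^ (2 * pe M) := by
    refine (pe_spec M ℓ).trans ((Nat.pow_le_pow_left h1 _).trans (le_of_eq ?_))
    rw [mul_pow, ← pow_mul]
  have h4 : n < 2 ^ (Nat.log 2 n + 1) := Nat.lt_pow_succ_log_self (by norm_num) n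
  calc 8 * M.p.eval ℓ ≤ 8 * (D ^ pe M * n ^ (2 * pe M)) := Nat.mul_le_mul_left _ h3
    _ = (8 * D ^ pe M) * n ^ (2 * pe M) := by ring
    _ ≤ n * n ^ (2 * pe M) := Nat.mul_le_mul_right _ (by omega)
    _ = n ^ (kf M) := by unfold kf; rw [pow_succ, mul_comm]
    _ ≤ (2 ^ (Nat.log 2 n + 1)) ^ (kf M) := Nat.pow_le_pow_left h4.le _
    _ = _ := by rw [← pow_mul, mul_comm]

/-- the set of the oracles with no error at the length `n` -/
def good (M N : Alg) (q : Polynomial ℕ) (σ : List Bool) (H c : ℕ) (E : Oracle) (β : Bool)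
    (κ ν j l : ℕ) : Set Oracle :=
  {A | ∀ u : List Bool, u.length = l →
    ¬ Badm M N q σ H c (tI (kf M) κ ν β j u) (join A E)}

theorem join_congr {A A' E : Oracle} {b : ℕ} (h : ∀ x ∈ Pool.Agent.H20RD.short b, A x = A' x)
    (y : List Bool) (hy : y.length ≤ b + 1) : join A E y = join A' E y := by
  rcases y with _ | ⟨c, y⟩
  · rfl
  · cases c with
    | true => rfl
    | false =>
      change A y = A' y
      apply h
      rw [Pool.Agent.H20RD.mem_short]
      simp only [List.length_cons] at hy
      omega

theorem depOn_good (M N : Alg) (q : Polynomial ℕ) (σ : List Bool) (H c : ℕ) (E : Oracle)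
    (β : Bool) (κ ν j l : ℕ) :
    ∃ ρ, DepOn (Pool.Agent.H20RD.short ρ) (good M N q σ H c E β κ ν j l) := by
  classical
  have h1 : ∀ u : List Bool, ∃ b : ℕ, ∀ B B' : Oracle, (∀ y : List Bool, y.length ≤ b →
      B y = B' y) → (Badm M N q σ H c (tI (kf M) κ ν β j u) B ↔
        Badm M N q σ H c (tI (kf M) κ ν β j u) B') := by
    intro u
    refine loc_badm M N q σ H c _ ⟨1 + j + u.length + kf M * ν + (κ + κ), fun B B' hB => ?_⟩
    refine loc_ins _ _ _ _ _ _ (fun i hi => ?_) hB
    simp only [List.length_cons, List.length_append, List.length_replicate]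
    omega
  choose b hb using h1
  refine ⟨(strs l).sup b, fun A A' hA => ?_⟩
  refine forall₂_congr fun u hu => not_congr (hb u _ _ fun y hy => join_congr hA y ?_)
  have := Finset.le_sup (f := b) (mem_strs.2 hu)
  omega

/-- **One length.** -/
theorem level (M N : Alg) (q : Polynomial ℕ) (σ : List Bool) (H c : ℕ) (E : Oracle) (β : Bool)
    (κ : ℕ) : ∀ᶠ n : ℕ in Filter.atTop, ∀ j m ν l : ℕ, j + κ + m = n → ν = Nat.log 2 n + 1 →
      l + kf M * ν = m → ∀ A ∈ good M N q σ H c E β κ ν j l,
      (∀ z : List Bool, z.length = m → A ∉ hitC β j κ z) →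
      ∀ P : Finset (List Bool), (∀ z ∈ P, z.length = m ∧
        Keeps (cellC j κ z) (hitC β j κ z) (good M N q σ H c E β κ ν j l) A) →
      8 * P.card ≤ 2 ^ m := by
  classical
  filter_upwards [short_N N q H c (cI (kf M) κ), time_tI M σ κ,
    Filter.eventually_ge_atTop 1] with n hsh hti hn j m ν l hjm hν hl A hA hno P hP
  have hlen : ∀ u : List Bool, u.length = l →
      (bits (tI (kf M) κ ν β j u)).length ≤ cI (kf M) κ * n ^ 2 := fun u hu =>
    len_tI hn hν (by omega)
  set T : ℕ := 2 ^ (kf M * ν) / 8 with hT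
  have hT8 : 8 * T ≤ 2 ^ (kf M * ν) := Nat.mul_div_le _ _
  -- the cells with one address
  have hone : ∀ u : List Bool, u.length = l →
      (P.filter fun z => z.take l = u).card ≤ T := by
    intro u hu
    choose! A' hA1 hA2 hA3 using fun z hz => (hP z hz).2
    refine few M N q σ H c (tI (kf M) κ ν β j u) (T := T) ?_ (n := n) ?_ (join A E)
      (hA u hu) ?_ _ (fun z => join (A' z) E) ?_ ?_ ?_ ?_
    · have h1 := hti (pairBits σ (bits (tI (kf M) κ ν β j u))).length (by
        rw [length_pairBits]
        have := hlen u hu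
        omega)
      rw [← hν] at h1
      rw [hT, Nat.le_div_iff_mul_le (by norm_num), mul_comm]
      exact h1
    · exact hsh _ (hlen u hu)
    · rw [sat_tI]
      rintro ⟨w, hw, hw2⟩
      exact hno (u ++ w) (by rw [List.length_append, hu, hw]; omega) hw2
    · intro t ht t' ht' y h1 h2
      rw [Finset.mem_filter] at ht ht'
      rcases y with _ | ⟨c, y⟩
      · exact absurd rfl h1
      · cases c with
        | true => exact absurd rfl h1
        | false =>
          change A' t y ≠ A y at h1
          change A' t' y ≠ A y at h2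
          have m1 : y ∈ cellC j κ t := by
            by_contra hc
            exact h1 (hA1 t ht.1 y hc)
          have m2 : y ∈ cellC j κ t' := by
            by_contra hc
            exact h2 (hA1 t' ht'.1 y hc)
          by_contra hne
          exact Finset.disjoint_left.1 (disjoint_cellC
            ((hP t ht.1).1.trans (hP t' ht'.1).1.symm) hne) m1 m2
    · intro t ht y h1
      rw [Finset.mem_filter] at ht
      rcases y with _ | ⟨c, y⟩
      · exact absurd rfl h1
      · cases c with
        | true => exact absurd rfl h1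
        | false =>
          change A' t y ≠ A y at h1
          have m1 : y ∈ cellC j κ t := by
            by_contra hc
            exact h1 (hA1 t ht.1 y hc)
          simp only [cellC, Finset.mem_image, Finset.mem_range] at m1
          obtain ⟨i, hi, rfl⟩ := m1
          have h3 := (hP t ht.1).1
          rw [List.length_cons, length_cs (by omega)]
          omega
    · intro t ht
      rw [Finset.mem_filter] at ht
      rw [sat_tI]
      have h3 := (hP t ht.1).1
      refine ⟨t.drop l, by rw [List.length_drop]; omega, ?_⟩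
      rw [← ht.2, List.take_append_drop]
      exact hA2 t ht.1
    · intro t ht
      rw [Finset.mem_filter] at ht
      exact hA3 t ht.1 u hu
  have hcov : P ⊆ (strs l).biUnion fun u => P.filter fun z => z.take l = u := by
    intro z hz
    have h3 := (hP z hz).1
    rw [Finset.mem_biUnion]
    exact ⟨z.take l, mem_strs.2 (by rw [List.length_take]; omega), Finset.mem_filter.2 ⟨hz, rfl⟩⟩
  have h1 : P.card ≤ 2 ^ l * T := by
    refine (Finset.card_le_card hcov).trans (Finset.card_biUnion_le.trans ?_)
    refine (Finset.sum_le_card_nsmul _ _ T fun u hu => hone u (mem_strs.1 hu)).trans ?_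
    rw [card_strs, smul_eq_mul]
  calc 8 * P.card ≤ 8 * (2 ^ l * T) := Nat.mul_le_mul_left _ h1
    _ = 2 ^ l * (8 * T) := by ring
    _ ≤ 2 ^ l * 2 ^ (kf M * ν) := Nat.mul_le_mul_left _ hT8
    _ = 2 ^ m := by rw [← pow_add, hl]

end Pool.Agent.H20PW
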