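import Pool.Agent.H20RD.Blocks
import Pool.Agent.Y626.WC.Dt

/-!
# Biased random oracles: resampling, and decision trees for disjunctions of local events
-/

set_option autoImplicit false

namespace Pool.Agent.H20PW

open MeasureTheory Pool.Agent.NPC Pool.Agent.H620R2.Gauge Pool.Agent.Y626.WR
open Pool.Agent.H20RD (DepOn rnd w rnd_inter coin_real Orc)
open Pool.Agent.Y626.WC (DT)

variable (q : List Bool → unitInterval)

/-- the oracles with the elements `T` in `J` -/
def cyl (J T : Finset (List Bool)) : Set Orc := {A | (J.filter fun x => A x = true) = T}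

theorem depOn_cyl (J T : Finset (List Bool)) : DepOn J (cyl J T) := by
  intro A A' h
  have e : (J.filter fun x => A x = true) = J.filter fun x => A' x = true :=
    Finset.filter_congr fun x hx => by rw [h x hx]
  change (J.filter fun x => A x = true) = T ↔ (J.filter fun x => A' x = true) = T
  rw [e]

theorem ow_cyl {J T : Finset (List Bool)} {A : Orc} (h : A ∈ cyl J T) : ow J T A = A := by
  funext x
  unfold ow
  split_ifs with hx
  · have h1 : (J.filter fun x => A x = true) = T := h
    rw [← h1]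
    by_cases h2 : A x = true
    · rw [h2, decide_eq_true_eq, Finset.mem_filter]
      exact ⟨hx, h2⟩
    · rw [Bool.not_eq_true] at h2
      rw [h2, decide_eq_false_iff_not, Finset.mem_filter, h2]
      simp
  · rfl

theorem depOn_ow {K J T : Finset (List Bool)} {G : Set Orc} (hG : DepOn K G) :
    DepOn (K \ J) {A | ow J T A ∈ G} := by
  intro A A' h
  refine hG _ _ fun x hx => ?_
  unfold ow
  split_ifs with hx'
  · rfl
  · exact h x (Finset.mem_sdiff.2 ⟨hx, hx'⟩)

theorem resample {G : Set Orc} {K : Finset (List Bool)} (hG : DepOn K G)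
    (J : Finset (List Bool)) :
    (rnd q).real G = ∑ T ∈ J.powerset, (rnd q).real (cyl J T) *
      (rnd q).real {A | ow J T A ∈ G} := by
  classical
  have e1 : G = ⋃ T ∈ J.powerset, (G ∩ cyl J T) := by
    ext A
    simp only [Set.mem_iUnion, Set.mem_inter_iff, exists_prop, Finset.mem_powerset]
    constructor
    · intro hA
      exact ⟨_, Finset.filter_subset _ _, hA, rfl⟩
    · rintro ⟨T, _, hA, _⟩
      exact hA
  conv_lhs => rw [e1]
  rw [measureReal_biUnion_finset]
  · refine Finset.sum_congr rfl fun T _ => ?_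
    have e2 : G ∩ cyl J T = {A | ow J T A ∈ G} ∩ cyl J T := by
      ext A
      simp only [Set.mem_inter_iff, Set.mem_ofPred_eq]
      constructor
      · rintro ⟨h1, h2⟩
        exact ⟨by rw [ow_cyl h2]; exact h1, h2⟩
      · rintro ⟨h1, h2⟩
        rw [ow_cyl h2] at h1
        exact ⟨h1, h2⟩
    rw [e2, rnd_inter q (depOn_ow hG) (depOn_cyl J T) Finset.sdiff_disjoint, mul_comm]
  · intro T _ T' _ hne
    rw [Function.onFun, Set.disjoint_left]
    rintro A ⟨_, h1⟩ ⟨_, h2⟩
    exact hne (h1.symm.trans h2)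
  · intro T _
    exact hG.measurable.inter (depOn_cyl J T).measurable

theorem sum_cyl (J : Finset (List Bool)) : ∑ T ∈ J.powerset, (rnd q).real (cyl J T) = 1 := by
  have h := resample q (G := Set.univ) (K := ∅) (fun _ _ _ => Iff.rfl) J
  simp only [Set.mem_univ, Set.ofPred_true, probReal_univ, mul_one] at h
  exact h.symm

theorem rnd_pat (A0 : Orc) (C : Finset (List Bool)) :
    (rnd q).real {A | ∀ x ∈ C, A x = A0 x} = ∏ x ∈ C, w (A0 x) (q x) := by
  have h1 : {A : Orc | ∀ x ∈ C, A x = A0 x} = Set.pi (C : Set (List Bool)) (fun x => {A0 x}) := by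
    ext A
    simp [Set.mem_pi]
  rw [h1]
  unfold rnd Measure.real
  rw [Measure.infinitePi_pi _ (fun i _ => measurableSet_singleton (A0 i)), ENNReal.toReal_prod]
  exact Finset.prod_congr rfl fun x _ => coin_real (q x) (A0 x)

theorem rnd_live {ε : ℝ} (h0 : 0 ≤ ε) {J : Finset (List Bool)}
    (hε : ∀ z ∈ J, ∀ β, ε ≤ w β (q z)) {S : Set Orc} (hS : DepOn J S) {A0 : Orc}
    (hA : A0 ∈ S) : ε ^ J.card ≤ (rnd q).real S := by
  have h1 : {A : Orc | ∀ x ∈ J, A x = A0 x} ⊆ S := fun A h =>
    (hS A0 A fun x hx => (h x hx).symm).1 hA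
  refine le_trans ?_ (measureReal_mono h1)
  rw [rnd_pat]
  rw [← Finset.prod_const]
  exact Finset.prod_le_prod (fun _ _ => h0) fun x hx => hε x hx _

/-- the probability that none of some independent local events happens -/
theorem rnd_none {ε : ℝ} (h0 : 0 ≤ ε) (h1 : ε ≤ 1) {S : Finset (List Bool)}
    (hε : ∀ z ∈ S, ∀ β, ε ≤ w β (q z)) {ι : Type} (f : ι → Orc → Prop)
    (D : ι → Finset (List Bool)) (hloc : ∀ i, DepOn (D i) {A | f i A}) (hD : ∀ i, D i ⊆ S)
    {k : ℕ} (s : Finset ι) (hlive : ∀ i ∈ s, (∃ A, f i A) ∧ (D i).card ≤ k)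
    (hdis : (s : Set ι).PairwiseDisjoint D) :
    (rnd q).real {A | ∀ i ∈ s, ¬ f i A} ≤ (1 - ε ^ k) ^ s.card := by
  classical
  induction s using Finset.induction_on with
  | empty =>
    have : {A : Orc | ∀ i ∈ (∅ : Finset ι), ¬ f i A} = Set.univ := by
      ext A; simp
    rw [this, Finset.card_empty, pow_zero, probReal_univ]
  | insert j s hj ih =>
    have hl : ∀ i ∈ s, (∃ A, f i A) ∧ (D i).card ≤ k := fun i hi =>
      hlive i (Finset.mem_insert_of_mem hi)
    have hd : (s : Set ι).PairwiseDisjoint D := hdis.subset (by simp)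
    have e1 : {A | ∀ i ∈ insert j s, ¬ f i A} = {A | ∀ i ∈ s, ¬ f i A} ∩ {A | f j A}ᶜ := by
      ext A
      simp only [Set.mem_ofPred_eq, Finset.mem_insert, forall_eq_or_imp, Set.mem_inter_iff,
        Set.mem_compl_iff]
      exact and_comm
    have e2 : (rnd q).real {A | f j A}ᶜ ≤ 1 - ε ^ k := by
      rw [measureReal_compl (hloc j).measurable, probReal_univ]
      obtain ⟨⟨A0, hA0⟩, hc⟩ := hlive j (Finset.mem_insert_self _ _)
      have h3 := rnd_live q h0 (fun z hz => hε z (hD j hz)) (S := {A | f j A}) (hloc j) hA0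
      have h4 : ε ^ k ≤ ε ^ (D j).card := pow_le_pow_of_le_one h0 h1 hc
      linarith
    have hdj : Disjoint (s.biUnion D) (D j) := by
      rw [Finset.disjoint_biUnion_left]
      intro i hi
      exact hdis (by simp [hi]) (by simp) (by rintro rfl; exact hj hi)
    have hdep : DepOn (s.biUnion D) {A | ∀ i ∈ s, ¬ f i A} := by
      intro A A' h
      refine forall₂_congr fun i hi => not_congr (hloc i A A' fun z hz => h z ?_)
      exact Finset.mem_biUnion.2 ⟨i, hi, hz⟩
    rw [e1, rnd_inter q hdep (hloc j).compl hdj, Finset.card_insert_of_notMem hj, pow_succ]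
    have h5 : (0 : ℝ) ≤ 1 - ε ^ k := by
      have : ε ^ k ≤ 1 := pow_le_one₀ h0 h1
      linarith
    exact mul_le_mul (ih hl hd) e2 measureReal_nonneg (pow_nonneg h5 _)

/-- The disjunction of events which depend on at most `k` bits is, with high probability, the value
of a decision tree. -/
theorem tree (W m : ℕ) (S : Finset (List Bool)) : ∀ (k : ℕ), k ≤ W → ∀ (ι : Type)
    (f : ι → Orc → Prop) (D : ι → Finset (List Bool)),
    (∀ i, DepOn (D i) {A | f i A}) →
    (∀ i, D i ⊆ S) → (∀ i, (∃ A, f i A) → (D i).card ≤ k) →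
    ∃ t : DT, t.depth ≤ m * k ^ 2 ∧ t.In (⋃ i, (D i : Set (List Bool))) ∧
      ∀ (q : List Bool → unitInterval) (ε : ℝ), 0 ≤ ε → ε ≤ 1 →
        (∀ z ∈ S, ∀ β, ε ≤ w β (q z)) →
        (rnd q).real {A | ¬ (t.eval A = true ↔ ∃ i, f i A)} ≤ (1 - ε ^ W) ^ m := by
  classical
  have hnn : ∀ ε : ℝ, 0 ≤ ε → ε ≤ 1 → (0 : ℝ) ≤ (1 - ε ^ W) ^ m := by
    intro ε h0 h1
    have : ε ^ W ≤ 1 := pow_le_one₀ h0 h1
    exact pow_nonneg (by linarith) _
  -- if some event always happens
  have hsure : ∀ (k : ℕ) (ι : Type)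
      (f : ι → Orc → Prop) (D : ι → Finset (List Bool)),
      (∀ i, DepOn (D i) {A | f i A}) →
      (∃ i, (∃ A, f i A) ∧ D i = ∅) →
      ∃ t : DT, t.depth ≤ m * k ^ 2 ∧ t.In (⋃ i, (D i : Set (List Bool))) ∧
      ∀ (q : List Bool → unitInterval) (ε : ℝ), 0 ≤ ε → ε ≤ 1 →
        (∀ z ∈ S, ∀ β, ε ≤ w β (q z)) →
        (rnd q).real {A | ¬ (t.eval A = true ↔ ∃ i, f i A)} ≤ (1 - ε ^ W) ^ m := by
    rintro k ι f D hloc ⟨i, ⟨A0, h0⟩, hD⟩
    refine ⟨DT.leaf true, Nat.zero_le _, trivial, fun q ε h1 h2 _ => ?_⟩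
    have : {A | ¬ ((DT.leaf true).eval A = true ↔ ∃ i, f i A)} = ∅ := by
      rw [Set.eq_empty_iff_forall_notMem]
      intro A hA
      apply hA
      refine ⟨fun _ => ⟨i, (hloc i A0 A ?_).1 h0⟩, fun _ => rfl⟩
      rw [hD]
      intro z hz
      exact absurd hz (Finset.notMem_empty z)
    rw [this, measureReal_empty]
    exact hnn ε h1 h2
  intro k
  induction k with
  | zero =>
    intro _ ι f D hloc hS hlive
    by_cases hex : ∃ i, ∃ A, f i A
    · obtain ⟨i, hi⟩ := hex
      exact hsure 0 ι f D hloc ⟨i, hi, Finset.card_eq_zero.1 (Nat.le_zero.1 (hlive i hi))⟩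
    · refine ⟨DT.leaf false, Nat.zero_le _, trivial, fun q ε h1 h2 _ => ?_⟩
      have : {A | ¬ ((DT.leaf false).eval A = true ↔ ∃ i, f i A)} = ∅ := by
        rw [Set.eq_empty_iff_forall_notMem]
        intro A hA
        apply hA
        refine ⟨fun h => absurd h (by simp [DT.eval]), fun ⟨i, h⟩ => absurd ⟨i, A, h⟩ hex⟩
      rw [this, measureReal_empty]
      exact hnn ε h1 h2
  | succ k ih =>
    intro hw ι f D hloc hS hlive
    by_cases hsr : ∃ i, (∃ A, f i A) ∧ D i = ∅
    · exact hsure (k + 1) ι f D hloc hsr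
    by_cases hbig : ∃ s : Finset ι, s.card = m ∧ (∀ i ∈ s, ∃ A, f i A) ∧
        (s : Set ι).PairwiseDisjoint D
    · obtain ⟨s, hs, hsl, hsd⟩ := hbig
      refine ⟨DT.leaf true, Nat.zero_le _, trivial, fun q ε e0 e1 hε => ?_⟩
      have h1 := rnd_none q e0 e1 hε f D hloc hS (k := k + 1) s
        (fun i hi => ⟨hsl i hi, hlive i (hsl i hi)⟩) hsd
      have h2 : (rnd q).real {A | ¬ ((DT.leaf true).eval A = true ↔ ∃ i, f i A)} ≤
          (rnd q).real {A | ∀ i ∈ s, ¬ f i A} := by
        refine measureReal_mono ?_ (measure_ne_top _ _)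
        intro A hA i _ hi
        exact hA ⟨fun _ => ⟨i, hi⟩, fun _ => rfl⟩
      refine h2.trans (h1.trans ?_)
      rw [hs]
      have h3 : ε ^ W ≤ ε ^ (k + 1) := pow_le_pow_of_le_one e0 e1 hw
      have h4 : ε ^ (k + 1) ≤ 1 := pow_le_one₀ e0 e1
      exact pow_le_pow_left₀ (by linarith) (by linarith) _
    -- a maximal disjoint family
    obtain ⟨s, hsl, hsd, hsc, hmax⟩ : ∃ s : Finset ι, (∀ i ∈ s, ∃ A, f i A) ∧
        (s : Set ι).PairwiseDisjoint D ∧ s.card ≤ m ∧
        ∀ i, (∃ A, f i A) → ¬ Disjoint (D i) (s.biUnion D) := by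
      have hb : ∀ s : Finset ι, (∀ i ∈ s, ∃ A, f i A) → (s : Set ι).PairwiseDisjoint D →
          s.card < m := by
        intro s h1 h2
        by_contra hc
        push Not at hc
        obtain ⟨s', h3, h4⟩ := Finset.exists_subset_card_eq hc
        exact hbig ⟨s', h4, fun i hi => h1 i (h3 hi), h2.subset (Finset.coe_subset.2 h3)⟩
      have hP : ∃ n : ℕ, ∃ s : Finset ι, s.card = m - n ∧ (∀ i ∈ s, ∃ A, f i A) ∧
          (s : Set ι).PairwiseDisjoint D := ⟨m, ∅, by simp, by simp, by simp⟩
      obtain ⟨s, h1, h2, h3⟩ := Nat.find_spec hP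
      have hlt := hb s h2 h3
      refine ⟨s, h2, h3, hlt.le, fun i hi hdisj => ?_⟩
      have hne : (D i).Nonempty := by
        rw [Finset.nonempty_iff_ne_empty]
        intro h
        exact hsr ⟨i, hi, h⟩
      have his : i ∉ s := by
        intro h
        obtain ⟨z, hz⟩ := hne
        exact (Finset.disjoint_left.1 hdisj hz) (Finset.mem_biUnion.2 ⟨i, h, hz⟩)
      have hn0 : Nat.find hP ≠ 0 := by
        intro h
        rw [h] at h1
        omega
      have hle : Nat.find hP ≤ m := Nat.find_min' hP ⟨∅, by simp, by simp, by simp⟩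
      refine Nat.find_min hP (Nat.sub_lt (Nat.pos_of_ne_zero hn0) Nat.one_pos)
        ⟨insert i s, ?_, ?_, ?_⟩
      · rw [Finset.card_insert_of_notMem his, h1]
        omega
      · intro j hj
        rcases Finset.mem_insert.1 hj with rfl | hj
        · exact hi
        · exact h2 j hj
      · rw [Finset.coe_insert]
        refine h3.insert fun j hj _ => ?_
        rw [Finset.disjoint_biUnion_right] at hdisj
        exact hdisj j (Finset.mem_coe.1 hj)
    set U := s.biUnion D with hU
    have hUc : U.card ≤ m * (k + 1) := by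
      refine le_trans Finset.card_biUnion_le ?_
      refine le_trans (Finset.sum_le_card_nsmul _ _ (k + 1) fun i hi => hlive i (hsl i hi)) ?_
      rw [smul_eq_mul]
      exact Nat.mul_le_mul_right _ hsc
    have hk : ∀ T : Finset (List Bool), ∃ t : DT, t.depth ≤ m * k ^ 2 ∧
        t.In (⋃ i, ((D i \ U : Finset (List Bool)) : Set (List Bool))) ∧
        ∀ (q : List Bool → unitInterval) (ε : ℝ), 0 ≤ ε → ε ≤ 1 →
        (∀ z ∈ S, ∀ β, ε ≤ w β (q z)) →
        (rnd q).real {A | ¬ (t.eval A = true ↔ ∃ i, f i (ow U T A))} ≤ (1 - ε ^ W) ^ m := by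
      intro T
      refine ih (by omega) ι (fun i A => f i (ow U T A)) (fun i => D i \ U) ?_ ?_ ?_
      · intro i A A' h
        refine hloc i _ _ fun z hz => ?_
        unfold ow
        by_cases hzU : z ∈ U
        · rw [if_pos hzU, if_pos hzU]
        · rw [if_neg hzU, if_neg hzU]
          exact h z (Finset.mem_sdiff.2 ⟨hz, hzU⟩)
      · intro i
        exact Finset.sdiff_subset.trans (hS i)
      · rintro i ⟨A, hA⟩
        have h1 := hlive i ⟨_, hA⟩
        have h2 := hmax i ⟨_, hA⟩
        rw [Finset.not_disjoint_iff] at h2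
        obtain ⟨z, hz1, hz2⟩ := h2
        have h3 : (D i \ U).card < (D i).card :=
          Finset.card_lt_card ⟨Finset.sdiff_subset, fun h => (Finset.mem_sdiff.1 (h hz1)).2 hz2⟩
        omega
    choose K hk1 hk2 hk3 using hk
    refine ⟨DT.qall U.toList K, ?_, ?_, fun q ε e0 e1 hε => ?_⟩
    · refine (DT.depth_qall U.toList K hk1).trans ?_
      rw [Finset.length_toList]
      calc U.card + m * k ^ 2 ≤ m * (k + 1) + m * k ^ 2 := by omega
        _ = m * (k + 1 + k ^ 2) := by ring
        _ ≤ m * (k + 1) ^ 2 := Nat.mul_le_mul_left _ (by nlinarith)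
    · refine DT.in_qall _ _ ?_ fun T => DT.In.mono ?_ _ (hk2 T)
      · intro z hz
        rw [Finset.mem_toList, hU, Finset.mem_biUnion] at hz
        obtain ⟨i, _, hz⟩ := hz
        exact Set.mem_iUnion.2 ⟨i, Finset.mem_coe.2 hz⟩
      · refine Set.iUnion_mono fun i => ?_
        exact Finset.coe_subset.2 Finset.sdiff_subset
    · set Er : Set Orc := {A | ¬ ((DT.qall U.toList K).eval A = true ↔ ∃ i, f i A)} with hEr
      have hinS : (DT.qall U.toList K).In (S : Set (List Bool)) := by
        refine DT.in_qall _ _ ?_ fun T => DT.In.mono ?_ _ (hk2 T)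
        · intro z hz
          rw [Finset.mem_toList, hU, Finset.mem_biUnion] at hz
          obtain ⟨i, _, hz⟩ := hz
          exact Finset.mem_coe.2 (hS i hz)
        · refine Set.iUnion_subset fun i => ?_
          exact Finset.coe_subset.2 (Finset.sdiff_subset.trans (hS i))
      have hdep : DepOn S Er := by
        intro A A' h
        have h2 : (∃ i, f i A) ↔ ∃ i, f i A' :=
          exists_congr fun i => hloc i A A' fun z hz => h z (hS i hz)
        change ¬ _ ↔ ¬ _
        rw [DT.eval_congr (fun z hz => h z (Finset.mem_coe.1 hz)) _ hinS, h2]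
      rw [resample q hdep U]
      have hterm : ∀ T ∈ U.powerset, (rnd q).real (cyl U T) * (rnd q).real {A | ow U T A ∈ Er} ≤
          (rnd q).real (cyl U T) * (1 - ε ^ W) ^ m := by
        intro T hT
        refine mul_le_mul_of_nonneg_left ?_ measureReal_nonneg
        refine le_trans (le_of_eq ?_) (hk3 T q ε e0 e1 hε)
        congr 1
        ext A
        change ¬ ((DT.qall U.toList K).eval (ow U T A) = true ↔ ∃ i, f i (ow U T A)) ↔ ¬ _
        rw [DT.eval_qall]
        have e1 : (U.toList.toFinset.filter fun z => ow U T A z = true) = T := by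
          rw [Finset.toList_toFinset]
          ext z
          rw [Finset.mem_filter]
          unfold ow
          constructor
          · rintro ⟨h1, h2⟩
            rw [if_pos h1, decide_eq_true_eq] at h2
            exact h2
          · intro h
            have h1 := Finset.mem_powerset.1 hT h
            exact ⟨h1, by rw [if_pos h1, decide_eq_true_eq]; exact h⟩
        have e2 : (K T).eval (ow U T A) = (K T).eval A := by
          refine DT.eval_congr (fun z hz => ?_) _ (hk2 T)
          obtain ⟨i, hz⟩ := Set.mem_iUnion.1 hz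
          have := (Finset.mem_sdiff.1 (Finset.mem_coe.1 hz)).2
          unfold ow
          rw [if_neg this]
        rw [e1, e2]
      refine (Finset.sum_le_sum hterm).trans ?_
      rw [← Finset.sum_mul, sum_cyl, one_mul]

/-- The bound for the probability. -/
theorem err_le {x : ℝ} (h1 : x ≤ 1) {K : ℕ} (hK : 1 ≤ K * x) (n : ℕ) :
    (1 - x) ^ (K * n) ≤ (1 / 2 : ℝ) ^ n := by
  rw [pow_mul]
  refine pow_le_pow_left₀ (pow_nonneg (by linarith) _) ?_ n
  have h2 : 1 - x ≤ Real.exp (-x) := by
    have := Real.add_one_le_exp (-x)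
    linarith
  have h3 : (1 - x) ^ K ≤ Real.exp (-x) ^ K := pow_le_pow_left₀ (by linarith) h2 _
  refine h3.trans ?_
  rw [← Real.exp_nat_mul]
  have h4 : Real.exp (K * -x) ≤ Real.exp (-1) := Real.exp_le_exp.2 (by linarith)
  refine h4.trans ?_
  rw [Real.exp_neg]
  have := Real.exp_one_gt_d9
  rw [inv_le_comm₀ (by positivity) (by norm_num)]
  norm_num
  linarith

end Pool.Agent.H20PW
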