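import Pool.Agent.H20PW.Ins
import Pool.Agent.H622R2.Exp.YAux
import Pool.Agent.Y581.WN.Mini

/-!
# The size of the test instances; the questions they depend on
-/

set_option autoImplicit false

namespace Pool.Agent.H20PW

open Pool.Agent.NPC Pool.Agent.H620R2.Gauge Pool.Agent.Y626.WG

/-- the size of the constant part -/
def cpart (k g : ℕ) : ℕ :=
  sz [1 + g + k] + sz (((List.range (1 + g)).map (fun r => (r + 1, [r, r])) ++
    (List.range k).map (fun t => (1 + g + 1, [1 + g + t, 1 + g + t]))) ++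
    (List.range g).map (fun i => (0, 0 :: ((List.range k).map (fun t => 1 + g + t) ++ [1 + i])))) +
    (sz [List.replicate (1 + g + k) true ++ List.replicate g true] +
    sz [List.replicate (1 + g + k) true ++ List.replicate g false])

theorem sz_nat_pow {m s : ℕ} (h : m < 2 ^ s) : sz m ≤ 4 * s + 1 := by
  have h1 := sz_nat_le m
  have h2 := Nat.size_le.2 h
  omega

theorem sz_ins_le {k g ν : ℕ} {β : Bool} {c0 : List Bool} {sf : ℕ → List Bool} {n : ℕ}
    (hn : 1 ≤ n) (hν : 2 ^ ν ≤ 2 * n) (hν2 : ν ≤ n + 1) (h0 : c0.length ≤ n + 1)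
    (hs : ∀ i < g, (sf i).length ≤ n + 1) :
    (bits (ins k g ν β c0 sf)).length ≤
      (10 * (g + 3) + (2 + g) * (16 * g + 60) + 6 + cpart k g) * n ^ 2 := by
  rw [bits_length]
  have e : sz (ins k g ν β c0 sf) = sz ((ins k g ν β c0 sf).labels, (ins k g ν β c0 sf).rels,
    (ins k g ν β c0 sf).blocks, (ins k g ν β c0 sf).atoms, (ins k g ν β c0 sf).acc) := rfl
  rw [e, sz_pair, sz_pair, sz_pair, sz_pair]
  have h1 : sz (ins k g ν β c0 sf).labels ≤ (1 + g + 2 ^ ν) * (4 * (n + 1) + 1 + 1) + 1 := by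
    have h := sz_le_length_mul (ins k g ν β c0 sf).labels (4 * (n + 1) + 1) (by
      intro a ha
      change a ∈ (List.range (1 + g + 2 ^ ν)).map (lb g ν c0 sf) at ha
      rw [List.mem_map] at ha
      obtain ⟨e, _, rfl⟩ := ha
      refine (sz_listBool_le _).trans ?_
      have : (lb g ν c0 sf e).length ≤ n + 1 := by
        unfold lb
        split_ifs with h1 h2
        · exact h0
        · exact hs _ (by omega)
        · rw [length_bitsOf]
          exact hν2
      omega)
    have h2 : (ins k g ν β c0 sf).labels.length = 1 + g + 2 ^ ν := by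
      change ((List.range (1 + g + 2 ^ ν)).map (lb g ν c0 sf)).length = _
      simp
    rw [h2] at h
    exact h
  have hnat : ∀ m < 1 + g + 2 ^ ν, sz m ≤ 4 * (ν + g + 1) + 1 := by
    intro m hm
    refine sz_nat_pow (hm.trans_le ?_)
    have h3 : 1 + g ≤ 2 ^ g := by
      have := Nat.lt_two_pow_self (n := g)
      omega
    have h4 : 1 ≤ 2 ^ ν := Nat.one_le_two_pow
    have h5 : 1 ≤ 2 ^ g := Nat.one_le_two_pow
    calc 1 + g + 2 ^ ν ≤ 2 ^ g + 2 ^ ν := by omega
      _ ≤ 2 ^ g * 2 ^ ν + 2 ^ g * 2 ^ ν := by nlinarith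
      _ = 2 ^ (ν + g + 1) := by rw [pow_succ, pow_add]; ring
  have h2 : sz (ins k g ν β c0 sf).rels ≤
      (2 + g) * (2 ^ ν * (8 * (ν + g + 1) + 3 + 1) + 1 + 1 + 1 + 1) + 1 := by
    have h := sz_le_length_mul (ins k g ν β c0 sf).rels
      (2 ^ ν * (8 * (ν + g + 1) + 3 + 1) + 1 + 1 + 1) (by
      intro a ha
      change a ∈ (List.range (1 + g)).map (fun r => [(r, r)]) ++
        [(List.range (2 ^ ν)).map fun i => (1 + g + i, 1 + g + i)] at ha
      rw [List.mem_append, List.mem_map, List.mem_singleton] at ha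
      rcases ha with ⟨r, hr, rfl⟩ | rfl
      · rw [List.mem_range] at hr
        have h3 := hnat r (by have : 1 ≤ 2 ^ ν := Nat.one_le_two_pow
                              omega)
        rw [sz_list_cons, sz_list_nil, sz_pair]
        have h4 : 1 ≤ 2 ^ ν := Nat.one_le_two_pow
        nlinarith
      · have h3 := sz_le_length_mul ((List.range (2 ^ ν)).map fun i => (1 + g + i, 1 + g + i))
          (8 * (ν + g + 1) + 3) (by
          intro a ha
          rw [List.mem_map] at ha
          obtain ⟨i, hi, rfl⟩ := ha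
          rw [List.mem_range] at hi
          have h3 := hnat (1 + g + i) (by omega)
          rw [sz_pair]
          omega)
        rw [List.length_map, List.length_range] at h3
        omega)
    have h3 : (ins k g ν β c0 sf).rels.length = 2 + g := by
      change ((List.range (1 + g)).map (fun r => [(r, r)]) ++
        [(List.range (2 ^ ν)).map fun i => (1 + g + i, 1 + g + i)]).length = _
      simp
      omega
    rw [h3] at h
    exact h
  have h3 : sz (ins k g ν β c0 sf).blocks + (sz (ins k g ν β c0 sf).atoms +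
      sz (ins k g ν β c0 sf).acc) ≤ cpart k g := by
    unfold cpart
    have e1 : (ins k g ν β c0 sf).blocks = [1 + g + k] := rfl
    have e2 : (ins k g ν β c0 sf).atoms = ((List.range (1 + g)).map (fun r => (r + 1, [r, r])) ++
      (List.range k).map (fun t => (1 + g + 1, [1 + g + t, 1 + g + t]))) ++
      (List.range g).map (fun i => (0, 0 :: ((List.range k).map (fun t => 1 + g + t) ++
        [1 + i]))) := rfl
    have e3 : (ins k g ν β c0 sf).acc =
      [List.replicate (1 + g + k) true ++ List.replicate g β] := rfl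
    rw [e1, e2, e3]
    cases β <;> omega
  have h4 : (1 + g + 2 ^ ν) * (4 * (n + 1) + 1 + 1) ≤ ((g + 3) * n) * (10 * n) := by
    refine Nat.mul_le_mul ?_ (by omega)
    nlinarith
  have h5 : 2 ^ ν * (8 * (ν + g + 1) + 3 + 1) + 1 + 1 + 1 + 1 ≤ (16 * g + 60) * n ^ 2 := by
    have h6 : 2 ^ ν * (8 * (ν + g + 1) + 3 + 1) ≤ (2 * n) * ((8 * g + 28) * n) := by
      refine Nat.mul_le_mul hν ?_
      nlinarith
    nlinarith
  have h6 : (2 + g) * (2 ^ ν * (8 * (ν + g + 1) + 3 + 1) + 1 + 1 + 1 + 1) ≤
      (2 + g) * ((16 * g + 60) * n ^ 2) := Nat.mul_le_mul_left _ h5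
  have h7 : 1 ≤ n ^ 2 := Nat.one_le_pow _ _ hn
  have h8 : cpart k g ≤ cpart k g * n ^ 2 := Nat.le_mul_of_pos_right _ h7
  have e4 : (10 * (g + 3) + (2 + g) * (16 * g + 60) + 6 + cpart k g) * n ^ 2 =
      ((g + 3) * n) * (10 * n) + (2 + g) * ((16 * g + 60) * n ^ 2) + 6 * n ^ 2 +
        cpart k g * n ^ 2 := by ring
  rw [e4]
  omega

end Pool.Agent.H20PW
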